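import Pool.Agent.Work.MP_dd0d16_nt.T.Mat
import Pool.Agent.Work.MP_dd0d16_nt.S.Defs
import Pool.Agent.Work.MP_dd0d16_nt.T.ThmD
import Pool.Agent.Work.MP_dd0d16_nt.G.Cyc

-- merged part: Pool.Agent.Work.MP_dd0d16_nt.S.LimBr
section
-- merged part: Pool.Agent.Work.MP_dd0d16_nt.S.Lim
section
/-!
Limits of families of integers.

PLAN. `Lim.rep`: from `GS_rep`, `vG_le_one`; replace the value by `0` where the norm exceeds one.
`Lim.si`: the case `P = 0` is trivial. Otherwise let `ν` be the place of a largest coefficient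
(`exists_max_coeff`), choose `z μ : RK O K` with `toGS (z μ) = coeff μ P / coeff ν P` (`Lim.rep`) and
`c μ : R0` with `κ (c μ) = Λ (z μ)` (`Lim.const`). `Λ (z ν - 1) = 0` by `Lim.zero` and `Λ 1 ≠ 0`
(`not_inf_of_le` with `c = 0`; `(lf_germ ..).p0`-like facts: `vG U p ≠ 0`, `vG U p < 1` follow from
`vG_le`), so `∑ μ ∈ P.support, monomial μ (c μ) ≠ 0`, hence `Λ (∑ μ, z μ * ∏ y ^ μ) ≠ 0`, and the value
of `P / coeff ν P` is not infinitesimal.
`Lim.small`: `small_of_near` for `map (toGS U O K) F`, `map (toGS U O K) G`.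
-/

set_option autoImplicit false

namespace Pool.Agent.Work.MP_dd0d16_nt.T

open Filter MvPolynomial

variable {p : ℕ} [Fact p.Prime] {ι : Type} (U : Ultrafilter ι)

/-- The class of a family of elements of a subring. -/
noncomputable def gO (O : Subring (PadicAlgCl p)) : (ι → O) →+* GF p U :=
  (gm U).comp (RingHom.pi fun n => O.subtype.comp (Pi.evalRingHom (fun _ => O) n))

theorem gO_apply (O : Subring (PadicAlgCl p)) (z : ι → O) : gO U O z = gm U fun n => z n := rfl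

/-- Families of elements of `O` that lie in `K`. -/
noncomputable def RK (ι : Type) (O : Subring (PadicAlgCl p))
    (K : IntermediateField ℚ_[p] (PadicAlgCl p)) : Subring (ι → O) :=
  ⨅ n, K.toSubalgebra.toSubring.comap (O.subtype.comp (Pi.evalRingHom (fun _ => O) n))

theorem mem_RK {O : Subring (PadicAlgCl p)} {K : IntermediateField ℚ_[p] (PadicAlgCl p)}
    {z : ι → O} : z ∈ RK ι O K ↔ ∀ n, (z n : PadicAlgCl p) ∈ K := Subring.mem_iInf

/-- The class of such a family is a constant. -/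
noncomputable def toGS (O : Subring (PadicAlgCl p)) (K : IntermediateField ℚ_[p] (PadicAlgCl p)) :
    RK ι O K →+* GS U fun _ => K :=
  ((gO U O).comp (RK ι O K).subtype).codRestrict _ fun z => ⟨_, mem_RK.1 z.2, rfl⟩

theorem toGS_coe (O : Subring (PadicAlgCl p)) (K : IntermediateField ℚ_[p] (PadicAlgCl p))
    (z : RK ι O K) : (toGS U O K z : GF p U) = gO U O z := rfl

/-- `Λ` is the limit of families in the ring of integers `O` of `W`. -/
structure Lim (O : Subring (PadicAlgCl p)) (W : IntermediateField ℚ_[p] (PadicAlgCl p))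
    {R0 R : Type} [CommRing R0] [CommRing R] (κ : R0 →+* R) (Λ : (ι → O) →+* R) : Prop where
  mem : ∀ z, z ∈ O ↔ z ∈ W ∧ ‖z‖ ≤ 1
  zero : ∀ z, Λ z = 0 ↔ Inf (vG U) (vG U (p : GF p U)) (gO U O z)
  const : ∀ (K : IntermediateField ℚ_[p] (PadicAlgCl p)) [FiniteDimensional ℚ_[p] K], K ≤ W →
    ∀ z : RK ι O K, ∃ c, κ c = Λ z

variable {U} {O : Subring (PadicAlgCl p)} {W K : IntermediateField ℚ_[p] (PadicAlgCl p)}
  {R0 R : Type} [CommRing R0] [CommRing R] {κ : R0 →+* R} {Λ : (ι → O) →+* R} {σ : Type}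

theorem Lim_p0 : vG U (p : GF p U) ≠ 0 :=
  (Valuation.ne_zero_iff _).2 (Nat.cast_ne_zero.2 (Fact.out : p.Prime).ne_zero)

theorem Lim_p1 : vG U (p : GF p U) < 1 := by
  have hp : (2 : ℝ) ≤ p := by exact_mod_cast (Fact.out : p.Prime).two_le
  refine lt_of_not_ge fun h => ?_
  have h1 := vG_le U (1 : ι → PadicAlgCl p) ((p : ι → PadicAlgCl p) ^ 1)
  rw [← Germ_pow, map_one, map_one, pow_one] at h1
  obtain ⟨n, hn⟩ := (h1.1 h).exists
  rw [Germ_norm, Pi.one_apply, norm_one, pow_one] at hn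
  exact absurd (inv_lt_one_of_one_lt₀ (by linarith)) (not_lt.2 hn)

theorem Lim_le (h : Lim U O W κ Λ) (z : ι → O) : vG U (gO U O z) ≤ 1 :=
  (vG_le_one U _).2 (Eventually.of_forall fun n => ((h.mem _).1 (z n).2).2)

theorem Lim_aeval (y : σ → ι → O) (F : MvPolynomial σ (RK ι O K)) :
    aeval (fun s => gO U O (y s)) (map (toGS U O K) F) =
      gO U O (eval₂ (RK ι O K).subtype y F) := by
  rw [aeval_def, eval₂_map, eval₂_comp_left]
  rfl

theorem Lim_coeff {R1 : Type} [CommRing R1] (S : Finset (σ →₀ ℕ)) (c : (σ →₀ ℕ) → R1)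
    {ν : σ →₀ ℕ} (hν : ν ∈ S) : (∑ μ ∈ S, monomial μ (c μ)).coeff ν = c ν := by
  classical
  simp only [coeff_sum, coeff_monomial, Finset.sum_ite_eq', if_pos hν]

theorem Lim.rep (h : Lim U O W κ Λ) (hK : K ≤ W) (c : GS U fun _ => K)
    (hc : vG U (c : GF p U) ≤ 1) : ∃ z : RK ι O K, toGS U O K z = c := by
  classical
  obtain ⟨f, hf, e⟩ := GS_rep U c.2
  rw [← e, vG_le_one] at hc
  have k : ∀ n, (if ‖f n‖ ≤ 1 then f n else 0) ∈ K ∧ ‖if ‖f n‖ ≤ 1 then f n else 0‖ ≤ 1 :=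
    fun n => by
      split_ifs with hn
      exacts [⟨hf n, hn⟩, ⟨zero_mem _, by simp⟩]
  refine ⟨⟨fun n => ⟨_, (h.mem _).2 ⟨hK (k n).1, (k n).2⟩⟩, mem_RK.2 fun n => (k n).1⟩,
    Subtype.ext (Eq.trans ?_ e)⟩
  exact (gm_eq U).2 (hc.mono fun n hn => if_pos hn)

theorem Lim.congr (h : Lim U O W κ Λ) {z z' : ι → O} (e : ∀ᶠ n in U, z n = z' n) :
    Λ z = Λ z' := by
  have e1 : gO U O z = gO U O z' := (gm_eq U).2 (e.mono fun n hn => congrArg Subtype.val hn)
  rw [← sub_eq_zero, ← map_sub, h.zero, map_sub, e1, sub_self]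
  exact fun c => by simp

theorem Lim.si (h : Lim U O W κ Λ) [FiniteDimensional ℚ_[p] K] (hK : K ≤ W) (y : σ → ι → O)
    (hind : ∀ P : MvPolynomial σ R0, eval₂ κ (fun s => Λ (y s)) P = 0 → P = 0) :
    SI (vG U) (GS U fun _ => K) (vG U (p : GF p U)) fun s => gO U O (y s) := by
  intro P μ
  by_cases hP : P = 0
  · exact ⟨0, by simp [hP]⟩
  obtain ⟨ν, h1, h2⟩ := exists_max_coeff (vG U) hP
  have h3 : ((P.coeff ν : GS U fun _ => K) : GF p U) ≠ 0 := fun k => h1 (Subtype.ext k)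
  choose z hz using fun μ => h.rep hK (P.coeff μ / P.coeff ν) (by
    rw [Subfield.coe_div, map_div₀]
    exact div_le_one_of_le₀ (h2 μ) zero_le)
  choose c hc using fun μ => h.const K hK (z μ)
  have e1 : P = C (P.coeff ν) * map (toGS U O K) (∑ μ ∈ P.support, monomial μ (z μ)) := by
    rw [map_sum, Finset.mul_sum]
    simp only [map_monomial, C_mul_monomial, hz, mul_div_cancel₀ _ h1]
    exact P.as_sum
  have e2 : eval₂ κ (fun s => Λ (y s)) (∑ μ ∈ P.support, monomial μ (c μ)) =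
      Λ (eval₂ (RK ι O K).subtype y (∑ μ ∈ P.support, monomial μ (z μ))) := by
    rw [eval₂_comp_left, eval₂_sum, eval₂_sum]
    refine Finset.sum_congr rfl fun μ _ => ?_
    rw [eval₂_monomial, eval₂_monomial, hc]
    rfl
  have e3 : ¬ Inf (vG U) (vG U (p : GF p U))
      (gO U O (eval₂ (RK ι O K).subtype y (∑ μ ∈ P.support, monomial μ (z μ)))) := fun k => by
    have k1 := congrArg (coeff ν) (hind _ (e2.trans ((h.zero _).2 k)))
    rw [Lim_coeff _ _ (mem_support_iff.2 h1), coeff_zero] at k1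
    have k2 := (h.zero _).1 ((hc ν).symm.trans (by rw [k1, map_zero]))
    rw [← toGS_coe, hz, div_self h1] at k2
    exact not_inf_of_le Lim_p0 Lim_p1 (c := 0) (by simp) k2
  obtain ⟨n, hn⟩ := not_forall.1 e3
  refine ⟨n, ?_⟩
  conv_rhs => rw [e1, map_mul, Lim_aeval, aeval_C, map_mul, mul_comm]
  exact mul_le_mul' (not_le.1 hn).le (h2 μ)

theorem Lim.small (h : Lim U O W κ Λ) (y : σ → ι → O) (F G : MvPolynomial σ (RK ι O K))
    (hP : Prop2 (map (Λ.comp (RK ι O K).subtype) F) (map (Λ.comp (RK ι O K).subtype) G))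
    (hF : Λ (eval₂ (RK ι O K).subtype y F) ≠ 0) (hG : Λ (eval₂ (RK ι O K).subtype y G) ≠ 0)
    {u : GF p U} (hu : u * gO U O (eval₂ (RK ι O K).subtype y G) =
      gO U O (eval₂ (RK ι O K).subtype y F)) :
    Small (vG U) (GS U fun _ => K) (vG U (p : GF p U)) (fun s => gO U O (y s)) u := by
  refine small_of_near (F := map (toGS U O K) F) (G := map (toGS U O K) G) Lim_p0 Lim_p1
    (fun s => Lim_le h _) (fun μ => ?_) (fun μ => ?_) ?_ ?_ (fun μ ν => ?_) ?_
  · rw [coeff_map]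
    exact Lim_le h _
  · rw [coeff_map]
    exact Lim_le h _
  · rw [Lim_aeval]
    exact fun k => hF ((h.zero _).2 k)
  · rw [Lim_aeval]
    exact fun k => hG ((h.zero _).2 k)
  · have k := hP μ ν
    simp only [coeff_map] at k ⊢
    rw [← map_mul, ← map_mul, ← sub_eq_zero, ← map_sub] at k
    rw [← map_mul, ← map_mul, ← map_sub]
    exact (h.zero _).1 k
  · rwa [Lim_aeval, Lim_aeval]

end Pool.Agent.Work.MP_dd0d16_nt.T
end

-- merged part: Pool.Agent.Work.MP_dd0d16_nt.T.Ultra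
section
/-!
Witt vectors over an ultrapower.

PLAN. `exists_lam`: the ring map `WittVector p (ι → k0) → (ι → WittVector p k0)` with components
`WittVector.map (Pi.evalRingHom _ n)` is bijective (`WittVector.map_coeff`); compose the inverse with
`WittVector.map (Filter.Germ.coeRingHom U)`.
`Lam.prime`: the roots of `X ^ p - X` form a finite set, so each coefficient is eventually constant
(`Ultrafilter.eventually_exists_mem_iff`, or `Ultrafilter.eq_pure_of_finite_mem` for the image).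
`unif_ind`: otherwise `¬ Ind K D (y n)` eventually; choose `Q n` by `exists_zp` (any polynomial for
the other `n`); the exponents of degree at most `D'` form a finite set `S` (`Finsupp.finite_of_degree_le`);
for `μ ∈ S` let `c μ` come from `Lam.prime` for `n ↦ j (coeff μ (Q n))` (`Br.zp`); one `μ0 ∈ S` has a
unit coefficient eventually, so `c μ0 ≠ 0`; `P = ∑ μ ∈ S, monomial μ (c μ)` vanishes at the limit
point, because `∑ μ ∈ S, j (coeff μ (Q n)) * ∏ j (y n s) ^ μ s = j 0` eventually.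
-/

set_option autoImplicit false

namespace Pool.Agent.Work.MP_dd0d16_nt.T

open Filter

variable {p : ℕ} [Fact p.Prime] {ι : Type} (U : Ultrafilter ι)

/-- The ultrapower of the residue field. -/
abbrev KU (p : ℕ) [Fact p.Prime] {ι : Type} (U : Ultrafilter ι) : Type := Germ (U : Filter ι) (K0 p)

/-- The diagonal embedding. -/
noncomputable def kap : K0 p →+* KU p U := (Germ.coeRingHom _).comp (Pi.constRingHom ι (K0 p))

instance : CharP (KU p U) p := (RingHom.charP_iff_charP (kap U) p).1 inferInstance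

instance : PerfectRing (KU p U) p := by
  refine ⟨(frobenius (KU p U) p).injective, fun x => ?_⟩
  induction x using Germ.inductionOn with
  | h f =>
    choose g hg using fun n => surjective_frobenius (K0 p) p (f n)
    exact ⟨(g : KU p U), congrArg _ (funext hg)⟩

/-- The limit of a family of Witt vectors. -/
def Lam (Λ : (ι → WittVector p (K0 p)) →+* WittVector p (KU p U)) : Prop :=
  ∀ x i, (Λ x).coeff i = ((fun n => (x n).coeff i : ι → K0 p) : KU p U)

theorem exists_lam : ∃ Λ : (ι → WittVector p (K0 p)) →+* WittVector p (KU p U), Lam U Λ := by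
  let Φ : WittVector p (ι → K0 p) →+* (ι → WittVector p (K0 p)) :=
    RingHom.pi fun n => WittVector.map (Pi.evalRingHom (fun _ => K0 p) n)
  have hΦ : ∀ x n i, (Φ x n).coeff i = x.coeff i n := fun x n i => rfl
  have hb : Function.Bijective Φ :=
    ⟨fun x y h => WittVector.ext fun i => funext fun n => by rw [← hΦ, ← hΦ, h],
      fun x => ⟨WittVector.mk p fun i n => (x n).coeff i,
        funext fun n => WittVector.ext fun i => rfl⟩⟩
  let e := RingEquiv.ofBijective Φ hb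
  refine ⟨(WittVector.map (Germ.coeRingHom _)).comp e.symm.toRingHom, fun x i => ?_⟩
  obtain ⟨z, rfl⟩ := hb.2 x
  have h1 : e.symm (Φ z) = z := e.symm_apply_apply z
  change (WittVector.map (Germ.coeRingHom (U : Filter ι)) (e.symm (Φ z))).coeff i = _
  rw [h1]
  rfl

variable {U} {Λ : (ι → WittVector p (K0 p)) →+* WittVector p (KU p U)}

theorem Lam.congr (h : Lam U Λ) {x y : ι → WittVector p (K0 p)} (e : ∀ᶠ n in U, x n = y n) :
    Λ x = Λ y := by
  ext i
  rw [h, h]
  exact Germ.coe_eq.2 (e.mono fun n hn => by simp only [hn])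

theorem Lam.teich (h : Lam U Λ) (t : ι → K0 p) :
    Λ (fun n => WittVector.teichmuller p (t n)) = WittVector.teichmuller p (t : KU p U) := by
  ext i
  rw [h]
  rcases i with _ | i
  · rfl
  · simp only [WittVector.teichmuller_coeff_pos p _ _ i.succ_pos]
    rfl

theorem Lam.const (h : Lam U Λ) (c : WittVector p (K0 p)) :
    Λ (fun _ => c) = WittVector.map (kap U) c := by
  ext i
  rw [h]
  rfl

theorem Lam.prime (h : Lam U Λ) {x : ι → WittVector p (K0 p)}
    (hx : ∀ n i, (x n).coeff i ^ p = (x n).coeff i) : ∃ c, Λ x = WittVector.map (kap U) c := by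
  have hf : {a : K0 p | a ^ p = a}.Finite := by
    refine (Polynomial.finite_setOfPred_isRoot
      (FiniteField.X_pow_card_sub_X_ne_zero (K0 p) (Fact.out : p.Prime).one_lt)).subset fun a ha => ?_
    simpa [sub_eq_zero] using ha
  have h1 : ∀ i, ∃ c ∈ {a : K0 p | a ^ p = a}, ∀ᶠ n in U, (x n).coeff i = c := fun i =>
    (Ultrafilter.eventually_exists_mem_iff hf).1 (Eventually.of_forall fun n => ⟨_, hx n i, rfl⟩)
  choose c _ hc using h1
  refine ⟨WittVector.mk p c, WittVector.ext fun i => ?_⟩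
  rw [h]
  exact Germ.coe_eq.2 (hc i)

theorem Ultra_unit (b : WittVector p (K0 p)) (hb : b.coeff 0 ≠ 0) :
    ∃ y, b = WittVector.teichmuller p (b.coeff 0) * (1 + p * y) := by
  have h1 : WittVector.teichmuller p (b.coeff 0)⁻¹ * b - 1 ∈
      Ideal.span {(p : WittVector p (K0 p))} := by
    rw [← WittVector.ker_constantCoeff, RingHom.mem_ker, map_sub, map_mul, map_one]
    exact sub_eq_zero.2 (inv_mul_cancel₀ hb)
  obtain ⟨y, hy⟩ := Ideal.mem_span_singleton.1 h1
  refine ⟨y, ?_⟩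
  rw [← hy, add_sub_cancel, ← mul_assoc, ← map_mul, mul_inv_cancel₀ hb, map_one, one_mul]

/-- A family with nonzero limit has eventually constant valuation. -/
theorem Lam.val (h : Lam U Λ) {x : ι → WittVector p (K0 p)} (hx : Λ x ≠ 0) :
    ∃ (v : ℕ) (g : ι → K0 p) (y : ι → WittVector p (K0 p)), (∀ n, g n ≠ 0) ∧
      ∀ᶠ n in U, x n = p ^ v * WittVector.teichmuller p (g n) * (1 + p * y n) := by
  obtain ⟨i, hi⟩ : ∃ i, (Λ x).coeff i ≠ 0 := by
    by_contra! h'
    exact hx (WittVector.ext fun i => by rw [h', WittVector.zero_coeff])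
  rw [h] at hi
  have h1 : ∀ᶠ n in U, (x n).coeff i ≠ 0 :=
    Ultrafilter.eventually_not.2 fun h' => hi (Germ.coe_eq.2 h')
  obtain ⟨v, -, hv⟩ := (Ultrafilter.eventually_exists_mem_iff (Set.finite_Iic i)
    (P := fun v n => ∃ b : WittVector p (K0 p), b.coeff 0 ≠ 0 ∧ x n = p ^ v * b)).1
    (h1.mono fun n hn => by
      obtain ⟨m, b, hb, e⟩ := WittVector.exists_eq_pow_p_mul (x n) fun e => hn (by
        rw [e, WittVector.zero_coeff])
      refine ⟨m, Set.mem_Iic.2 (le_of_not_gt fun hm => hn ?_), b, hb, e⟩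
      rw [e, mul_comm, WittVector.mul_pow_charP_coeff_zero _ hm])
  have h2 : ∀ n, ∃ (g : K0 p) (y : WittVector p (K0 p)), g ≠ 0 ∧
      ((∃ b : WittVector p (K0 p), b.coeff 0 ≠ 0 ∧ x n = p ^ v * b) →
        x n = p ^ v * WittVector.teichmuller p g * (1 + p * y)) := fun n => by
    by_cases hn : ∃ b : WittVector p (K0 p), b.coeff 0 ≠ 0 ∧ x n = p ^ v * b
    · obtain ⟨b, hb, e⟩ := hn
      obtain ⟨y, hy⟩ := Ultra_unit b hb
      exact ⟨b.coeff 0, y, hb, fun _ => by rw [mul_assoc, ← hy, e]⟩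
    · exact ⟨1, 0, one_ne_zero, fun h' => absurd h' hn⟩
  choose g y hg hy using h2
  exact ⟨v, g, y, hg, hv.mono hy⟩

theorem unif_ind (h : Lam U Λ) {O : Subring (PadicAlgCl p)} {j : O →+* WittVector p (K0 p)}
    (hb : Br O j) {σ : Type} [Fintype σ] (y : ι → σ → O)
    (hind : ∀ P : MvPolynomial σ (WittVector p (K0 p)),
      MvPolynomial.eval₂ (WittVector.map (kap U)) (fun s => Λ fun n => j (y n s)) P = 0 → P = 0)
    (K : IntermediateField ℚ_[p] (PadicAlgCl p)) [FiniteDimensional ℚ_[p] K] (D : ℕ) :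
    ∀ᶠ n in U, Ind K D fun s => (y n s : PadicAlgCl p) := by
  classical
  by_contra hc
  have h0 : ∀ᶠ n in U, ¬ Ind K D fun s => (y n s : PadicAlgCl p) := Ultrafilter.eventually_not.2 hc
  have h1 : ∀ n, ∃ Q : MvPolynomial σ ℤ_[p], (¬ Ind K D fun s => (y n s : PadicAlgCl p)) →
      (∃ μ, IsUnit (Q.coeff μ)) ∧ Q.totalDegree ≤ Module.finrank ℚ_[p] K * D ∧
      MvPolynomial.eval₂ ((algebraMap ℚ_[p] (PadicAlgCl p)).comp (algebraMap ℤ_[p] ℚ_[p]))
        (fun s => (y n s : PadicAlgCl p)) Q = 0 := fun n => by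
    by_cases hn : Ind K D fun s => (y n s : PadicAlgCl p)
    · exact ⟨0, fun h' => absurd hn h'⟩
    · obtain ⟨Q, hQ⟩ := exists_zp hn
      exact ⟨Q, fun _ => hQ⟩
  choose Q hQ using h1
  let z : ℤ_[p] →+* O :=
    ((algebraMap ℚ_[p] (PadicAlgCl p)).comp (algebraMap ℤ_[p] ℚ_[p])).codRestrict O
      fun c => (hb.zp c).1
  have hz : ∀ c, (∀ i, (j (z c)).coeff i ^ p = (j (z c)).coeff i) ∧
      (IsUnit c → (j (z c)).coeff 0 ≠ 0) := fun c => (hb.zp c).2
  choose c hc using fun μ => h.prime (x := fun n => j (z ((Q n).coeff μ))) fun n i => (hz _).1 i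
  obtain ⟨S, hS⟩ : ∃ S : Finset (σ →₀ ℕ), ∀ P : MvPolynomial σ ℤ_[p],
      P.totalDegree ≤ Module.finrank ℚ_[p] K * D → P.support ⊆ S :=
    ⟨(Finsupp.finite_of_degree_le (Module.finrank ℚ_[p] K * D)).toFinset, fun P hP μ hμ =>
      (Set.Finite.mem_toFinset _).2 ((MvPolynomial.le_totalDegree hμ).trans hP)⟩
  have hP := hind (∑ μ ∈ S, MvPolynomial.monomial μ (c μ)) (by
    have e : MvPolynomial.eval₂ (WittVector.map (kap U)) (fun s => Λ fun n => j (y n s))
        (∑ μ ∈ S, MvPolynomial.monomial μ (c μ)) =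
        Λ (∑ μ ∈ S, (fun n => j (z ((Q n).coeff μ))) * ∏ s, (fun n => j (y n s)) ^ μ s) := by
      rw [MvPolynomial.eval₂_sum, map_sum]
      refine Finset.sum_congr rfl fun μ _ => ?_
      rw [MvPolynomial.eval₂_monomial, map_mul, hc, map_prod, Finsupp.prod_pow]
      simp only [map_pow]
    rw [e, ← map_zero Λ]
    refine h.congr (h0.mono fun n hn => ?_)
    obtain ⟨-, h2, h3⟩ := hQ n hn
    have h4 : MvPolynomial.eval₂ z (y n) (Q n) = 0 := by
      apply Subtype.ext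
      exact (MvPolynomial.hom_eval₂ (Q n) z O.subtype (y n)).trans h3
    have h5 := congrArg j h4
    rw [MvPolynomial.eval₂_eq', map_zero, map_sum] at h5
    simp only [map_mul, map_prod, map_pow] at h5
    simp only [Finset.sum_apply, Pi.mul_apply, Finset.prod_apply, Pi.pow_apply, Pi.zero_apply]
    rw [← h5]
    refine (Finset.sum_subset (hS _ h2) fun μ _ hμ => ?_).symm
    rw [MvPolynomial.notMem_support_iff.1 hμ, map_zero, map_zero, zero_mul])
  obtain ⟨μ, hμ, hu⟩ := (Ultrafilter.eventually_exists_mem_iff S.finite_toSet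
    (P := fun μ n => IsUnit ((Q n).coeff μ))).1 (h0.mono fun n hn => by
      obtain ⟨⟨μ, hμ⟩, h2, -⟩ := hQ n hn
      exact ⟨μ, hS _ h2 (MvPolynomial.mem_support_iff.2 hμ.ne_zero), hμ⟩)
  have h6 : c μ = 0 := by
    have h7 := congrArg (MvPolynomial.coeff μ) hP
    rw [MvPolynomial.coeff_sum] at h7
    simp only [MvPolynomial.coeff_monomial, Finset.sum_ite_eq', MvPolynomial.coeff_zero] at h7
    rwa [if_pos (Finset.mem_coe.1 hμ)] at h7
  have h7 := h (fun n => j (z ((Q n).coeff μ))) 0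
  rw [hc, h6, map_zero, WittVector.zero_coeff] at h7
  obtain ⟨n, h8, h9⟩ := (hu.and (Germ.coe_eq.1 h7)).exists
  exact (hz _).2 h8 h9.symm

end Pool.Agent.Work.MP_dd0d16_nt.T
end

-- merged part: Pool.Agent.Work.MP_dd0d16_nt.S.LimBr
section
/-!
The limit in Witt vectors.

PLAN. `Br.frob`: for `f` let `T f` be the set of `z` such that for some `r` we have `p ^ r * z ∈ O` and
`j (p ^ r * z)` is fixed by `WittVector.map (iterateFrobenius (K0 p) p f)`. It is closed under sums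
and products, contains `ℚ_[p]` (`Br.zp`, every element is `p ^ (-r)` times an element of `ℤ_[p]`) and
`T f ⊆ T (f * g)`. A root `z` has `j z = teichmuller t` (`Br.root`) with `t` in a finite field
(`Bridge_ord` in T/Bridge: `t ^ N = 1`, `p ∤ N`, so `p ^ φ(N) ≡ 1 mod N`, `Nat.ModEq.pow_totient`).
Every element of `Unr p` lies in `Algebra.adjoin` of the roots
(`IntermediateField.adjoin_toSubalgebra_of_isAlgebraic`), so in some `T f` with `f ≠ 0`; apply this
to a basis of `K`. Cancel `p ^ r` in `WittVector p (K0 p)`.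
`lim_br`: `mem` is `Br.sub`, `Br.le`, `Br.sat`. `zero`: `Λ x = 0` iff for all `c` eventually
`p ^ c ∣ x n` (`Lam`; a Witt vector over a perfect field whose first `c` coefficients vanish is divisible
by `p ^ c`: `WittVector.mem_span_p_pow_iff_le_coeff_eq_zero` or `exists_eq_pow_p_mul`), `BLog_dvd`,
`Br.inj`, `vG_le_pow`, `norm_p_eq`. `const`: as `Lam.prime` (T/Ultra) with `p ^ f` for `p`.
-/

set_option autoImplicit false

namespace Pool.Agent.Work.MP_dd0d16_nt.T

open Filter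

variable {p : ℕ} [Fact p.Prime] {ι : Type} {U : Ultrafilter ι} {O : Subring (PadicAlgCl p)}
  {j : O →+* WittVector p (K0 p)} {Λ : (ι → WittVector p (K0 p)) →+* WittVector p (KU p U)}

/-- Apply a ring map to a family. -/
def piMap (ι : Type) {A B : Type} [CommRing A] [CommRing B] (f : A →+* B) : (ι → A) →+* (ι → B) :=
  RingHom.pi fun n => f.comp (Pi.evalRingHom (fun _ => A) n)

theorem piMap_apply {A B : Type} [CommRing A] [CommRing B] (f : A →+* B) (z : ι → A) :
    piMap ι f z = fun n => f (z n) := rfl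

theorem LimBr_pow {a : K0 p} {f : ℕ} (h : a ^ p ^ f = a) (g : ℕ) : a ^ p ^ (f * g) = a := by
  induction g with
  | zero => simp
  | succ g ih => rw [Nat.mul_succ, pow_add, pow_mul, ih, h]

theorem LimBr_iff {f : ℕ} {w : WittVector p (K0 p)} :
    WittVector.map (iterateFrobenius (K0 p) p f) w = w ↔ ∀ i, w.coeff i ^ p ^ f = w.coeff i :=
  ⟨fun h i => congrArg (fun x : WittVector p (K0 p) => x.coeff i) h,
    fun h => WittVector.ext fun i => h i⟩

theorem LimBr_int (c : ℚ_[p]) : ∃ (r : ℕ) (d : ℤ_[p]), (d : ℚ_[p]) = (p : ℚ_[p]) ^ r * c := by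
  have hp : (1 : ℝ) < p := by exact_mod_cast (Fact.out : p.Prime).one_lt
  obtain ⟨r, hr⟩ := pow_unbounded_of_one_lt ‖c‖ hp
  refine ⟨r, ⟨(p : ℚ_[p]) ^ r * c, ?_⟩, rfl⟩
  rw [norm_mul, norm_pow, Padic.norm_p, inv_pow, inv_mul_le_iff₀ (by positivity), mul_one]
  exact hr.le

/-- The elements fixed by a power of Frobenius. -/
def LimBr_T (hb : Br O j) (f : ℕ) : Subalgebra ℚ_[p] (PadicAlgCl p) where
  carrier := {z | ∃ (r : ℕ) (y : O), (y : PadicAlgCl p) = (p : PadicAlgCl p) ^ r * z ∧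
    WittVector.map (iterateFrobenius (K0 p) p f) (j y) = j y}
  mul_mem' := by
    rintro a b ⟨r, y, hy, e⟩ ⟨r', y', hy', e'⟩
    refine ⟨r + r', y * y', ?_, by rw [map_mul, map_mul, e, e']⟩
    rw [Subring.coe_mul, hy, hy']
    ring
  add_mem' := by
    rintro a b ⟨r, y, hy, e⟩ ⟨r', y', hy', e'⟩
    refine ⟨r + r', p ^ r' * y + p ^ r * y', ?_, ?_⟩
    · push_cast
      rw [hy, hy']
      ring
    · simp only [map_add, map_mul, map_pow, map_natCast, e, e']
  algebraMap_mem' := by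
    intro c
    obtain ⟨r, d, hd⟩ := LimBr_int c
    obtain ⟨h, h1, -⟩ := hb.zp d
    refine ⟨r, ⟨_, h⟩, ?_, LimBr_iff.2 fun i => ?_⟩
    · change algebraMap ℚ_[p] (PadicAlgCl p) d = _
      rw [hd, map_mul, map_pow, map_natCast]
    · have h2 := LimBr_pow (a := (j ⟨_, h⟩).coeff i) (f := 1) (by rw [pow_one, h1]) f
      rwa [one_mul] at h2

theorem LimBr_mono (hb : Br O j) {f g : ℕ} (h : f ∣ g) : LimBr_T hb f ≤ LimBr_T hb g := by
  obtain ⟨g, rfl⟩ := h
  rintro z ⟨r, y, hy, e⟩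
  exact ⟨r, y, hy, LimBr_iff.2 fun i => LimBr_pow (LimBr_iff.1 e i) g⟩

theorem LimBr_root (hb : Br O j) {z : PadicAlgCl p} (hz : Root z) :
    ∃ f, f ≠ 0 ∧ z ∈ LimBr_T hb f := by
  obtain ⟨h, t, -, e⟩ := hb.root z hz
  obtain ⟨N, hN, h1⟩ := hz
  have hN0 : N ≠ 0 := fun h0 => hN (h0 ▸ dvd_zero p)
  have h2 : (⟨z, h⟩ : O) ^ N = 1 := Subtype.ext h1
  have h3 : t ^ N = 1 := by
    have h4 := congrArg j h2
    rw [map_pow, e, ← map_pow, map_one] at h4
    have h5 := congrArg (fun x : WittVector p (K0 p) => x.coeff 0) h4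
    simpa only [WittVector.teichmuller_coeff_zero, WittVector.one_coeff_zero] using h5
  have h6 : p ^ N.totient ≡ 1 [MOD N] :=
    Nat.ModEq.pow_totient (((Fact.out : p.Prime).coprime_iff_not_dvd).2 hN)
  refine ⟨N.totient, (Nat.totient_pos.2 (Nat.pos_of_ne_zero hN0)).ne', 0, ⟨z, h⟩, by simp, ?_⟩
  rw [e, WittVector.map_teichmuller, iterateFrobenius_def, pow_eq_pow_mod _ h3, h6,
    ← pow_eq_pow_mod _ h3, pow_one]

theorem LimBr_unr (hb : Br O j) {z : PadicAlgCl p} (hz : z ∈ Unr p) :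
    ∃ f, f ≠ 0 ∧ z ∈ LimBr_T hb f := by
  have h1 : z ∈ Algebra.adjoin ℚ_[p] {z : PadicAlgCl p | Root z} := by
    rw [← IntermediateField.adjoin_toSubalgebra_of_isAlgebraic fun x _ =>
      Algebra.IsAlgebraic.isAlgebraic x]
    exact hz
  clear hz
  induction h1 using Algebra.adjoin_induction with
  | mem x hx => exact LimBr_root hb hx
  | algebraMap c => exact ⟨1, one_ne_zero, Subalgebra.algebraMap_mem _ c⟩
  | add x y _ _ hx hy =>
    obtain ⟨f, hf, hx⟩ := hx
    obtain ⟨g, hg, hy⟩ := hy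
    exact ⟨f * g, mul_ne_zero hf hg, add_mem (LimBr_mono hb (dvd_mul_right f g) hx)
      (LimBr_mono hb (dvd_mul_left g f) hy)⟩
  | mul x y _ _ hx hy =>
    obtain ⟨f, hf, hx⟩ := hx
    obtain ⟨g, hg, hy⟩ := hy
    exact ⟨f * g, mul_ne_zero hf hg, mul_mem (LimBr_mono hb (dvd_mul_right f g) hx)
      (LimBr_mono hb (dvd_mul_left g f) hy)⟩

theorem Br.frob (hb : Br O j) (K : IntermediateField ℚ_[p] (PadicAlgCl p))
    [FiniteDimensional ℚ_[p] K] (hK : K ≤ Unr p) :
    ∃ f : ℕ, f ≠ 0 ∧ ∀ z : O, (z : PadicAlgCl p) ∈ K →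
      ∀ i, (j z).coeff i ^ p ^ f = (j z).coeff i := by
  let b := Module.finBasis ℚ_[p] K
  choose f hf hb' using fun i => LimBr_unr hb (hK (b i).2)
  refine ⟨∏ i, f i, Finset.prod_ne_zero_iff.2 fun i _ => hf i, fun z hz => LimBr_iff.1 ?_⟩
  have h1 : (z : PadicAlgCl p) ∈ LimBr_T hb (∏ i, f i) := by
    have h2 := congrArg (fun x : K => (x : PadicAlgCl p)) (b.sum_repr ⟨z, hz⟩)
    simp only [IntermediateField.coe_sum, IntermediateField.coe_smul] at h2
    rw [← h2]
    exact sum_mem fun i _ => Subalgebra.smul_mem _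
      (LimBr_mono hb (Finset.dvd_prod_of_mem f (Finset.mem_univ i)) (hb' i)) _
  obtain ⟨r, y, hy, e⟩ := h1
  have h3 : y = (p : O) ^ r * z := Subtype.ext (by push_cast; exact hy)
  rw [h3] at e
  simp only [map_mul, map_pow, map_natCast] at e
  exact mul_left_cancel₀ (pow_ne_zero r (WittVector.p_nonzero p (K0 p))) e

theorem LimBr_coeff (hb : Br O j) (z : O) (c : ℕ) :
    ‖(z : PadicAlgCl p)‖ ≤ (p : ℝ)⁻¹ ^ c ↔ ∀ i, i < c → (j z).coeff i = 0 := by
  have hp0 : (0 : ℝ) < p := by exact_mod_cast (Fact.out : p.Prime).pos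
  have hp : (p : PadicAlgCl p) ≠ 0 := Nat.cast_ne_zero.2 (Fact.out : p.Prime).ne_zero
  rw [← WittVector.mem_span_p_pow_iff_le_coeff_eq_zero, Ideal.mem_span_singleton]
  constructor
  · intro h
    have h1 : (z : PadicAlgCl p) / p ^ c ∈ O := by
      refine hb.sat _ (div_mem (hb.sub _ z.2) (pow_mem (natCast_mem _ p) c)) ?_
      rw [norm_div, norm_pow, norm_p_eq]
      exact div_le_one_of_le₀ h (by positivity)
    have h2 : z = (p : O) ^ c * ⟨_, h1⟩ := Subtype.ext (by
      push_cast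
      rw [mul_div_cancel₀ _ (pow_ne_zero c hp)])
    refine ⟨j ⟨_, h1⟩, ?_⟩
    rw [← map_natCast j p, ← map_pow, ← map_mul, ← h2]
  · rintro ⟨y, hy⟩
    obtain ⟨w, rfl⟩ := BLog_dvd hb c z y hy
    have h2 : z = (p : O) ^ c * w := hb.inj (by rw [hy, map_mul, map_pow, map_natCast])
    rw [h2]
    push_cast
    rw [norm_mul, norm_pow, norm_p_eq]
    exact mul_le_of_le_one_right (by positivity) (hb.le _ w.2)

theorem lim_br (hb : Br O j) (h : Lam U Λ) :
    Lim U O (Unr p) (WittVector.map (kap U)) (Λ.comp (piMap ι j)) := by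
  refine ⟨fun z => ⟨fun hz => ⟨hb.sub z hz, hb.le z hz⟩, fun hz => hb.sat z hz.1 hz.2⟩,
    fun z => ?_, fun K _ hK z => ?_⟩
  · have h1 : (Λ.comp (piMap ι j)) z = 0 ↔ ∀ i, ∀ᶠ n in U, (j (z n)).coeff i = 0 := by
      rw [WittVector.ext_iff]
      refine forall_congr' fun i => ?_
      rw [RingHom.comp_apply, h, WittVector.zero_coeff]
      exact Germ.coe_eq
    rw [h1]
    simp only [Inf, gO_apply, vG_le_pow, LimBr_coeff hb]
    constructor
    · intro h2 c
      exact (eventually_all_finite (Set.finite_Iio c)).2 fun i _ => h2 i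
    · intro h2 i
      exact (h2 (i + 1)).mono fun n hn => hn i (Nat.lt_succ_self i)
  · obtain ⟨f, hf0, hx⟩ := hb.frob K hK
    have hf : {a : K0 p | a ^ p ^ f = a}.Finite := by
      refine (Polynomial.finite_setOfPred_isRoot (FiniteField.X_pow_card_pow_sub_X_ne_zero (K0 p)
        hf0 (Fact.out : p.Prime).one_lt)).subset fun a ha => ?_
      simpa [sub_eq_zero] using ha
    have h1 : ∀ i, ∃ c ∈ {a : K0 p | a ^ p ^ f = a}, ∀ᶠ n in U, (j (z.1 n)).coeff i = c := fun i =>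
      (Ultrafilter.eventually_exists_mem_iff hf).1
        (Eventually.of_forall fun n => ⟨_, hx _ (mem_RK.1 z.2 n) i, rfl⟩)
    choose c _ hc using h1
    refine ⟨WittVector.mk p c, WittVector.ext fun i => ?_⟩
    rw [RingHom.comp_apply, h]
    exact (Germ.coe_eq.2 (hc i)).symm

end Pool.Agent.Work.MP_dd0d16_nt.T
end
end

-- merged part: Pool.Agent.Work.MP_dd0d16_nt.T.Final
section
-- merged part: Pool.Agent.Work.MP_dd0d16_nt.T.Elim
section
/-!
Elimination of dependent logarithms along an ultrafilter.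
-/

set_option autoImplicit false

namespace Pool.Agent.Work.MP_dd0d16_nt.T

open Filter IntermediateField

variable {p : ℕ} [Fact p.Prime] {L : PadicAlgCl p → PadicAlgCl p}

theorem Vsp_mono {S S' : Finset (PadicAlgCl p)} (h : S ⊆ S') : Vsp L S ≤ Vsp L S' :=
  Submodule.span_mono (Set.insert_subset_insert (Set.image_mono h))

theorem mul_mem_Vsp {S : Finset (PadicAlgCl p)} {c z : PadicAlgCl p} (hc : IsAlgebraic ℚ c)
    (hz : z ∈ Vsp L S) : c * z ∈ Vsp L S :=
  (Vsp L S).smul_mem ⟨c, mem_algebraicClosure_iff.2 hc⟩ hz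

theorem alg_mem_Vsp {S : Finset (PadicAlgCl p)} {c : PadicAlgCl p} (hc : IsAlgebraic ℚ c) :
    c ∈ Vsp L S := by
  simpa using mul_mem_Vsp hc (Submodule.subset_span (Set.mem_insert _ _) : 1 ∈ Vsp L S)

theorem log_mem_Vsp {S : Finset (PadicAlgCl p)} {c : PadicAlgCl p} (hc : c ∈ S) : L c ∈ Vsp L S :=
  Submodule.subset_span (Set.mem_insert_of_mem _ ⟨c, hc, rfl⟩)

theorem elim {ι σ I : Type} (U : Ultrafilter ι) (x : ι → σ → PadicAlgCl p)
    (w : ι → I → PadicAlgCl p) (u : ι → PadicAlgCl p) (hu : ∀ n, u n ≠ 0) (D : ℕ)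
    (hd : ∀ s : Finset I, (∀ (K : IntermediateField ℚ_[p] (PadicAlgCl p))
        [FiniteDimensional ℚ_[p] K] (D' : ℕ),
        ∀ᶠ n in U, Ind K D' (Sum.elim (x n) fun l : s => w n l)) ∨
      ∃ (κ : PadicAlgCl p) (r : I → ℤ) (o : I), o ∈ s ∧ r o ≠ 0 ∧ κ ≠ 0 ∧ IsAlgebraic ℚ κ ∧
        ∀ᶠ n in U, ∑ l ∈ s, r l * w n l = L κ)
    (M : ι → Fin 2 → Fin 2 → PadicAlgCl p)
    (hdet : ∀ᶠ n in U, M n 0 0 * M n 1 1 = M n 0 1 * M n 1 0) (s : Finset I) :
    ∀ (K : IntermediateField ℚ_[p] (PadicAlgCl p)) [FiniteDimensional ℚ_[p] K]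
      (S : Finset (PadicAlgCl p)) (A : ι → Fin 2 → Fin 2 → PadicAlgCl p)
      (B : ι → Fin 2 → Fin 2 → I → PadicAlgCl p), (∀ z ∈ S, z ≠ 0 ∧ IsAlgebraic ℚ z) →
      (∀ᶠ n in U, (∀ i j, A n i j ∈ Vsp L S ∧ Pol K D (x n) (u n * A n i j)) ∧
        (∀ i j l, IsAlgebraic ℚ (B n i j l) ∧ Pol K D (x n) (u n * B n i j l)) ∧
        ∀ i j, M n i j = A n i j + ∑ l ∈ s, B n i j l * w n l) →
      ∃ S' : Finset (PadicAlgCl p), (∀ z ∈ S', z ≠ 0 ∧ IsAlgebraic ℚ z) ∧
        ∀ᶠ n in U, Dep (M n) ∨ ∀ i j, M n i j ∈ Vsp L S' := by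
  classical
  induction s using Finset.strongInduction with
  | H s ih =>
  intro K _ S A B hS h
  rcases hd s with h1 | ⟨κ, r, o, ho, hr, hκ, hκa, h1⟩
  · refine ⟨S, hS, ?_⟩
    filter_upwards [h, hdet, h1 K (2 * (D + 1))] with n ⟨hA, hB, hM⟩ h2 h3
    have e0 : ∀ i j, M n i j = A n i j + ∑ l : s, B n i j l * w n l := fun i j => by
      rw [hM, Finset.sum_coe_sort s fun l => B n i j l * w n l]
    have e1 : ∀ (y : s → PadicAlgCl p) i j, u n * A n i j + ∑ l : s, u n * B n i j l * y l =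
        u n * (A n i j + ∑ l : s, B n i j l * y l) := fun y i j => by
      simp only [mul_add, Finset.mul_sum, mul_assoc]
    have h4 := h3.det (fun i j => u n * A n i j) (fun i j (l : s) => u n * B n i j l)
      (fun i j => (hA i j).2) (fun i j l => (hB i j l).2) (by
        simp only [e1, ← e0]
        linear_combination u n ^ 2 * h2)
    have h5 := dep_or_zero (A n) (fun i j (l : s) => B n i j l) (fun i j l => (hB i j l).1)
      (fun y => by
        have h6 := h4 y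
        simp only [e1] at h6
        apply mul_left_cancel₀ (pow_ne_zero 2 (hu n))
        linear_combination h6) fun l => w n l
    rcases h5 with h5 | h5
    · left
      simpa only [← e0] using h5
    · right
      intro i j
      rw [e0, Finset.sum_eq_zero fun l _ => by rw [h5 i j l, zero_mul], add_zero]
      exact (hA i j).1
  · have hr' : (r o : PadicAlgCl p) ≠ 0 := by exact_mod_cast hr
    have : FiniteDimensional ℚ_[p] ℚ_[p]⟮L κ⟯ :=
      adjoin.finiteDimensional (Algebra.IsIntegral.isIntegral _)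
    have hq : ∀ z : ℤ, IsAlgebraic ℚ ((z : PadicAlgCl p) / r o) := fun z =>
      (isAlgebraic_intCast z).mul (isAlgebraic_intCast (r o)).inv
    refine ih (s.erase o) (Finset.erase_ssubset ho) (K ⊔ ℚ_[p]⟮L κ⟯) (insert κ S)
      (fun n i j => A n i j + L κ / r o * B n i j o)
      (fun n i j l => B n i j l + -(r l / r o) * B n i j o) ?_ ?_
    · intro z hz
      rcases Finset.mem_insert.1 hz with rfl | hz
      exacts [⟨hκ, hκa⟩, hS z hz]
    filter_upwards [h, h1] with n ⟨hA, hB, hM⟩ h2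
    refine ⟨fun i j => ⟨add_mem (Vsp_mono (Finset.subset_insert _ _) (hA i j).1) ?_, ?_⟩,
      fun i j l => ⟨(hB i j l).1.add ((hq _).neg.mul (hB i j o).1), ?_⟩, fun i j => ?_⟩
    · have := mul_mem_Vsp (L := L) ((hq 1).mul (hB i j o).1)
        (log_mem_Vsp (Finset.mem_insert_self κ S))
      convert this using 1
      push_cast
      ring
    · rw [mul_add, mul_left_comm]
      refine ((hA i j).2.mono le_sup_left le_rfl).add
        (((hB i j o).2.mono le_sup_left le_rfl).smul (div_mem ?_ (intCast_mem _ _)))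
      exact (le_sup_right : _ ≤ K ⊔ ℚ_[p]⟮L κ⟯) (mem_adjoin_simple_self _ _)
    · rw [mul_add, mul_left_comm]
      exact ((hB i j l).2.mono le_sup_left le_rfl).add (((hB i j o).2.mono le_sup_left le_rfl).smul
        (neg_mem (div_mem (intCast_mem _ _) (intCast_mem _ _))))
    · rw [← Finset.add_sum_erase s _ ho] at h2
      rw [hM, ← Finset.add_sum_erase s _ ho, ← h2]
      have e2 : ∑ l ∈ s.erase o, (B n i j l + -(r l / r o) * B n i j o) * w n l =
          ∑ l ∈ s.erase o, B n i j l * w n l -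
            B n i j o / r o * ∑ l ∈ s.erase o, r l * w n l := by
        rw [Finset.mul_sum, ← Finset.sum_sub_distrib]
        exact Finset.sum_congr rfl fun l _ => by ring
      rw [e2]
      field_simp
      ring

end Pool.Agent.Work.MP_dd0d16_nt.T
end

-- merged part: Pool.Agent.Work.MP_dd0d16_nt.T.Seq
section
/-!
Transfer from the limit point to the members of the family.
-/

set_option autoImplicit false

namespace Pool.Agent.Work.MP_dd0d16_nt.T

open Filter WittVector MvPolynomial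

variable {p : ℕ} [Fact p.Prime] {ι : Type} {U : Ultrafilter ι}
  {Λ : (ι → WittVector p (K0 p)) →+* WittVector p (KU p U)} {O : Subring (PadicAlgCl p)}
  {j : O →+* WittVector p (K0 p)}

theorem ev_fp {R S σ J : Type} [CommRing R] [CommRing S] [Fintype J] [Fintype σ] (c : R →+* S)
    (x : σ → S) (e : J → σ →₀ ℕ) (b η : J → R) (z : J → S) (u : S)
    (h : ∀ i, z i * u = c (η i) * ∏ s, x s ^ e i s) :
    eval₂ c x (fp e fun i => b i * η i) = (∑ i, c (b i) * z i) * u := by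
  simp only [fp, eval₂_sum, eval₂_monomial, Finsupp.prod_pow, map_mul, mul_assoc, ← h,
    Finset.sum_mul]

theorem Lam.wlog (h : Lam U Λ) {x l : ι → WittVector p (K0 p)}
    (e : ∀ᶠ n in U, WLog p (x n) (l n)) : WLog p (Λ x) (Λ l) := by
  classical
  intro M
  have h1 : ∀ n, ∃ z, WLog p (x n) (l n) → (1 + p * x n) ^ p ^ M - 1 - p ^ M * l n =
      (p : WittVector p (K0 p)) ^ (2 * M) * z := fun n => by
    by_cases h2 : WLog p (x n) (l n)
    · obtain ⟨z, hz⟩ := h2 M
      exact ⟨z, fun _ => hz⟩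
    · exact ⟨0, fun h3 => absurd h3 h2⟩
  choose z hz using h1
  refine ⟨Λ z, ?_⟩
  have h2 := h.congr (x := (1 + p * x) ^ p ^ M - 1 - p ^ M * l) (y := p ^ (2 * M) * z)
    (e.mono fun n hn => by simpa using hz n hn)
  simpa using h2

theorem germ_ne {f : ι → K0 p} (hf : ∀ n, f n ≠ 0) : (f : KU p U) ≠ 0 := fun h => by
  obtain ⟨n, hn⟩ := (Germ.coe_eq.1 (h.trans Germ.coe_zero.symm)).exists
  exact hf n hn

theorem special (h : Lam U Λ) (hb : Br O j) {J : Type} [Fintype J] {m N0 : ℕ} (z : ι → J → O)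
    (t : ι → J → K0 p) (ht : ∀ n i, t n i ≠ 0) (hz : ∀ n i, j (z n i) = teichmuller p (t n i))
    (a : Fin m → KU p U) (ha : ∀ i, a i ≠ 0) (η : J → K0 p) (e : J → Fin m →₀ ℕ)
    (he : ∀ i, ((fun n => t n i : ι → K0 p) : KU p U) * ∏ d, a d ^ N0 =
      kap U (η i) * ∏ d, a d ^ e i d) :
    ∃ (x : ι → Fin m → O) (y : J → O), (∀ n d, Root (x n d : PadicAlgCl p)) ∧
      (∀ i, Root (y i : PadicAlgCl p)) ∧ (∀ d, (Λ fun n => j (x n d)) = teichmuller p (a d)) ∧
      (∀ i, j (y i) = teichmuller p (η i)) ∧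
      ∀ᶠ n in U, ∀ i, z n i * ∏ d, x n d ^ N0 = y i * ∏ d, x n d ^ e i d := by
  classical
  have h1 : ∀ d, ∃ f : ι → K0 p, (∀ n, f n ≠ 0) ∧ (f : KU p U) = a d := by
    intro d
    have h2 := ha d
    generalize a d = u at h2
    induction u using Germ.inductionOn with
    | h f =>
      refine ⟨fun n => if f n = 0 then 1 else f n, fun n => ?_, Germ.coe_eq.2 ?_⟩
      · dsimp only
        split_ifs with h3
        exacts [one_ne_zero, h3]
      · have h3 : ∀ᶠ n in U, ¬ f n = 0 := Ultrafilter.eventually_not.2 fun h4 =>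
          h2 ((Germ.coe_eq.2 h4).trans Germ.coe_zero)
        exact h3.mono fun n hn => if_neg hn
  choose f hf0 hf using h1
  have hη : ∀ i, η i ≠ 0 := fun i h0 => by
    have := he i
    rw [h0, map_zero, zero_mul] at this
    exact mul_ne_zero (germ_ne fun n => ht n i)
      (Finset.prod_ne_zero_iff.2 fun d _ => pow_ne_zero _ (ha d)) this
  choose x hx hx' using fun n d => hb.teich (f d n) (hf0 d n)
  choose y hy hy' using fun i => hb.teich (η i) (hη i)
  refine ⟨x, y, hx, hy, fun d => by simp only [hx', h.teich, hf], hy', eventually_all.2 fun i => ?_⟩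
  have h2 : (((fun n => t n i) * ∏ d, f d ^ N0 : ι → K0 p) : KU p U) =
      ((Pi.constRingHom ι (K0 p) (η i) * ∏ d, f d ^ e i d : ι → K0 p) : KU p U) := by
    have h3 := he i
    simp only [← hf] at h3
    change Germ.coeRingHom (U : Filter ι) _ = Germ.coeRingHom (U : Filter ι) _
    simp only [map_mul, map_prod, map_pow]
    exact h3
  refine (Germ.coe_eq.1 h2).mono fun n hn => hb.inj ?_
  have h4 := congrArg (teichmuller p) hn
  simpa [hz, hx', hy', Finset.prod_apply] using h4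

theorem lam_sum (h : Lam U Λ) {J : Type} [Fintype J] (z : ι → J → O) (t : ι → J → K0 p)
    (hz : ∀ n i, j (z n i) = teichmuller p (t n i)) (b : J → O) :
    (Λ fun n => j (∑ i, b i * z n i)) = ∑ i, WittVector.map (kap U) (j (b i)) *
      teichmuller p ((fun n => t n i : ι → K0 p) : KU p U) := by
  have : (fun n => j (∑ i, b i * z n i)) =
      ∑ i, (fun _ => j (b i)) * fun n => teichmuller p (t n i) := by
    funext n
    simp [hz]
  rw [this]
  simp only [map_sum, map_mul, h.const, h.teich]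

/-- A sum of Teichmueller lifts that does not vanish along the family has a nonzero limit. -/
theorem lam_ne (h : Lam U Λ) (hb : Br O j) {J : Type} [Fintype J] (z : ι → J → O)
    (t : ι → J → K0 p) (ht : ∀ n i, t n i ≠ 0) (hz : ∀ n i, j (z n i) = teichmuller p (t n i))
    (b : J → O) (hne : ∀ᶠ n in U, ∑ i, b i * z n i ≠ 0) :
    (Λ fun n => j (∑ i, b i * z n i)) ≠ 0 := by
  intro h0
  obtain ⟨m, a, N0, η, e, ha, he, hs⟩ := thmD (p := p) (kap U) (I := Empty)
    (fun i => ((fun n => t n i : ι → K0 p) : KU p U)) (fun i => germ_ne fun n => ht n i)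
    Empty.elim Empty.elim Empty.elim Empty.elim Empty.elim (·.elim) (·.elim) (·.elim)
  obtain ⟨x, y, hx, -, -, hy, hev⟩ := special h hb z t ht hz a ha η e he
  rcases hs (∅ : Finset Empty) Subtype.val with hs | ⟨r, r', -, -, hr, -⟩
  swap
  · exact hr (funext fun i => i.1.elim)
  have h1 := hs (rename Sum.inl (fp e fun i => j (b i) * teichmuller p (η i))) (by
    rw [eval₂_rename, Sum.elim_comp_inl, ev_fp _ _ e _ _
      (fun i => teichmuller p ((fun n => t n i : ι → K0 p) : KU p U))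
      (teichmuller p (∏ d, a d ^ N0)) fun i => by
        rw [← map_mul, he, map_mul, map_teichmuller, map_prod]
        simp only [map_pow], ← lam_sum h z t hz, h0, zero_mul])
  have h2 : fp e (fun i => b i * y i) = 0 := map_injective j hb.inj (by
    rw [map_fp, map_zero]
    simp only [map_mul, hy]
    exact rename_injective _ Sum.inl_injective (by rw [h1, map_zero]))
  obtain ⟨n, hn, hn'⟩ := (hev.and hne).exists
  have h3 := ev_fp (RingHom.id O) (x n) e b y (z n) _ hn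
  rw [h2, eval₂_zero] at h3
  refine mul_ne_zero hn' (Finset.prod_ne_zero_iff.2 fun d _ => pow_ne_zero _ fun h4 => ?_) h3.symm
  exact (hx n d).ne_zero (congrArg Subtype.val h4)

theorem rel_of_prop (hb : Br O j) {L : PadicAlgCl p → PadicAlgCl p} (hL : IsLog L) {σ I : Type}
    [Fintype σ] [Fintype I] (R : Subring O) (hR : ∀ c : R, IsAlgebraic ℚ ((c : O) : PadicAlgCl p))
    (f : I → MvPolynomial σ R) (x : ι → σ → O) (hx : ∀ n d, Root (x n d : PadicAlgCl p))
    (α : ι → I → PadicAlgCl p) (hα : ∀ n i, α n i ≠ 0) (u : ι → PadicAlgCl p)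
    (hu : ∀ n, u n ≠ 0 ∧ L (u n) = 0)
    (hf : ∀ᶠ n in U, ∀ i, eval₂ (O.subtype.comp R.subtype) (fun d => x n d) (f i) = α n i * u n)
    (r r' : I → ℕ) (w w' : σ →₀ ℕ)
    (hP : Prop2 (monomial w 1 * ∏ i, MvPolynomial.map (j.comp R.subtype) (f i) ^ r i)
      (monomial w' 1 * ∏ i, MvPolynomial.map (j.comp R.subtype) (f i) ^ r' i)) :
    ∃ κ : PadicAlgCl p, κ ≠ 0 ∧ IsAlgebraic ℚ κ ∧
      ∀ᶠ n in U, ∑ i, ((r i : ℤ) - r' i : ℤ) * L (α n i) = L κ := by
  classical
  let c := O.subtype.comp R.subtype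
  have hc : Function.Injective c := O.subtype_injective.comp R.subtype_injective
  have h1 : Prop2 (monomial w 1 * ∏ i, f i ^ r i) (monomial w' 1 * ∏ i, f i ^ r' i) :=
    Prop2.of_map (f := j.comp R.subtype) (hb.inj.comp R.subtype_injective) (by
      simpa only [map_mul, map_prod, map_pow, map_monomial, map_one] using hP)
  have h2 : ∀ᶠ n in U, ∀ (r : I → ℕ) (w : σ →₀ ℕ),
      eval₂ c (fun d => x n d) (monomial w 1 * ∏ i, f i ^ r i) ≠ 0 ∧
      L (eval₂ c (fun d => x n d) (monomial w 1 * ∏ i, f i ^ r i)) = ∑ i, r i * L (α n i) := by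
    refine hf.mono fun n hn r w => ?_
    have h3 : ∀ i, (α n i * u n) ^ r i ≠ 0 := fun i => pow_ne_zero _ (mul_ne_zero (hα n i) (hu n).1)
    have h4 : ∀ d, (x n d : PadicAlgCl p) ^ w d ≠ 0 := fun d => pow_ne_zero _ (hx n d).ne_zero
    have h5 := Finset.prod_ne_zero_iff.2 fun i (_ : i ∈ Finset.univ) => h3 i
    have h6 := Finset.prod_ne_zero_iff.2 fun d (_ : d ∈ Finset.univ) => h4 d
    simp only [c, eval₂_mul, eval₂_monomial, map_one, one_mul, eval₂_prod, eval₂_pow, hn,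
      Finsupp.prod_pow]
    refine ⟨mul_ne_zero h6 h5, ?_⟩
    rw [hL.1 _ _ h6 h5, log_prod hL _ _ h4, log_prod hL _ _ h3, Finset.sum_eq_zero, zero_add]
    · refine Finset.sum_congr rfl fun i _ => ?_
      rw [log_pow hL (mul_ne_zero (hα n i) (hu n).1), hL.1 _ _ (hα n i) (hu n).1, (hu n).2,
        add_zero]
    · intro d _
      rw [log_pow hL (hx n d).ne_zero, log_root hL (hx n d), mul_zero]
  generalize hP1 : monomial w 1 * ∏ i, f i ^ r i = P1 at h1
  generalize hP2 : monomial w' 1 * ∏ i, f i ^ r' i = P2 at h1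
  obtain ⟨n0, hn0⟩ := h2.exists
  obtain ⟨ν, hν⟩ := exists_coeff_ne_zero (p := P2) fun h0 => (hn0 r' w').1 (by
    rw [hP2, h0, eval₂_zero])
  have h3 : C (P2.coeff ν) * P1 = C (P1.coeff ν) * P2 := by
    ext μ
    rw [coeff_C_mul, coeff_C_mul, mul_comm, h1]
  have h4 : ∀ n, c (P2.coeff ν) * eval₂ c (fun d => x n d) P1 =
      c (P1.coeff ν) * eval₂ c (fun d => x n d) P2 := fun n => by
    simpa only [eval₂_mul, eval₂_C] using congrArg (eval₂ c fun d => (x n d : PadicAlgCl p)) h3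
  have c2 : c (P2.coeff ν) ≠ 0 := (map_ne_zero_iff c hc).2 hν
  have c1 : c (P1.coeff ν) ≠ 0 := fun h0 => by
    have h5 := h4 n0
    rw [h0, zero_mul, ← hP1] at h5
    exact mul_ne_zero c2 (hn0 r w).1 h5
  refine ⟨c (P1.coeff ν) / c (P2.coeff ν), div_ne_zero c1 c2, (hR _).mul (hR _).inv,
    h2.mono fun n hn => ?_⟩
  have h5 := congrArg L (h4 n)
  have h6 := hL.1 _ _ (div_ne_zero c1 c2) c2
  rw [div_mul_cancel₀ _ c2] at h6
  rw [← hP1, ← hP2, hL.1 _ _ (hP2 ▸ c2) (hn r w).1, hL.1 _ _ (hP1 ▸ c1) (hn r' w').1, (hn r w).2,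
    (hn r' w').2, hP1, hP2] at h5
  push_cast
  simp only [sub_mul, Finset.sum_sub_distrib]
  linear_combination h5 + h6

theorem seq_main {L : PadicAlgCl p → PadicAlgCl p} (hL : IsLog L) (U : Ultrafilter ι) {J I : Type}
    [Fintype J] [Fintype I] (ζ : ι → J → PadicAlgCl p) (hζ : ∀ n i, Root (ζ n i))
    (b : I → J → PadicAlgCl p) (hb1 : ∀ k i, IsAlgebraic ℚ (b k i))
    (hb2 : ∀ k i, b k i ∈ IntermediateField.adjoin ℚ_[p] {z : PadicAlgCl p | Root z})
    (hα : ∀ n k, ∑ i, b k i * ζ n i ≠ 0) (K : IntermediateField ℚ_[p] (PadicAlgCl p))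
    [FiniteDimensional ℚ_[p] K] (A : ι → Fin 2 → Fin 2 → PadicAlgCl p)
    (B : ι → Fin 2 → Fin 2 → I → PadicAlgCl p)
    (hA : ∀ n i i', IsAlgebraic ℚ (A n i i') ∧ A n i i' ∈ Submodule.span K (Set.range (ζ n)))
    (hB : ∀ n i i' k, IsAlgebraic ℚ (B n i i' k) ∧
      B n i i' k ∈ Submodule.span K (Set.range (ζ n)))
    (M : ι → Fin 2 → Fin 2 → PadicAlgCl p)
    (hM : ∀ n i i', M n i i' = A n i i' + ∑ k, B n i i' k * L (∑ i, b k i * ζ n i))
    (hdet : ∀ n, M n 0 0 * M n 1 1 = M n 0 1 * M n 1 0) :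
    ∃ S : Finset (PadicAlgCl p), (∀ z ∈ S, z ≠ 0 ∧ IsAlgebraic ℚ z) ∧
      ∀ᶠ n in U, Dep (M n) ∨ ∀ i j, M n i j ∈ Vsp L S := by
  classical
  obtain ⟨O, j, hb⟩ := exists_br p
  obtain ⟨Λ, h⟩ := exists_lam (p := p) U
  have hp0 : (p : PadicAlgCl p) ≠ 0 := Nat.cast_ne_zero.2 (Fact.out : p.Prime).ne_zero
  choose ρ hρ using fun k i => hb.unr _ (hb2 k i)
  have hρ' : ∀ k i, (p : PadicAlgCl p) ^ (∑ i, ρ k i) * b k i ∈ O := fun k i => by
    rw [← Finset.add_sum_erase _ _ (Finset.mem_univ i), add_comm, pow_add, mul_assoc]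
    exact mul_mem (pow_mem (natCast_mem O p) _) (hρ k i)
  let b' : I → J → O := fun k i => ⟨_, hρ' k i⟩
  choose hz t ht hzt using fun n i => hb.root _ (hζ n i)
  let z : ι → J → O := fun n i => ⟨_, hz n i⟩
  let α : ι → I → O := fun n k => ∑ i, b' k i * z n i
  have hα1 : ∀ n k, (α n k : PadicAlgCl p) = p ^ (∑ i, ρ k i) * ∑ i, b k i * ζ n i := fun n k => by
    simp [α, b', z, Finset.mul_sum, mul_assoc]
  have hα2 : ∀ n k, (α n k : PadicAlgCl p) ≠ 0 := fun n k => by
    rw [hα1]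
    exact mul_ne_zero (pow_ne_zero _ hp0) (hα n k)
  have hα3 : ∀ n k, L (α n k) = L (∑ i, b k i * ζ n i) := fun n k => by
    rw [hα1, hL.1 _ _ (pow_ne_zero _ hp0) (hα n k), log_pow hL hp0, hL.2.1, mul_zero, zero_add]
  choose v g y hg hv using fun k => h.val (lam_ne h hb z t ht hzt (b' k)
    (Eventually.of_forall fun n h0 => hα2 n k (congrArg Subtype.val h0)))
  let l : ι → I → O := fun n k => if h' : L (α n k) ∈ O then ⟨_, h'⟩ else 0
  have hl : ∀ k, ∀ᶠ n in U, (l n k : PadicAlgCl p) = L (α n k) ∧ WLog p (y k n) (j (l n k)) :=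
    fun k => (hv k).mono fun n hn => by
      obtain ⟨h', h2⟩ := hb.log hL (α n k) (hg k n) hn
      simp only [l, dif_pos h']
      exact ⟨trivial, h2⟩
  obtain ⟨m, a, N0, η, e, ha, he, hs⟩ := thmD (p := p) (kap U)
    (fun i => ((fun n => t n i : ι → K0 p) : KU p U)) (fun i => germ_ne fun n => ht n i)
    (fun k i => j (b' k i)) v (fun k => (g k : KU p U)) (fun k => Λ (y k))
    (fun k => Λ fun n => j (l n k)) (fun k => germ_ne (hg k)) (fun k => by
      rw [← lam_sum h z t hzt, ← h.teich, h.congr (hv k)]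
      change Λ (p ^ v k * (fun n => teichmuller p (g k n)) * (1 + p * y k)) = _
      simp only [map_mul, map_add, map_pow, map_natCast, map_one])
    (fun k => h.wlog ((hl k).mono fun n hn => hn.2))
  obtain ⟨x, η', hx, hη, hxa, hη', hev⟩ := special h hb z t ht hzt a ha η e he
  let u : ι → PadicAlgCl p := fun n => ∏ d, x n d ^ N0
  have hu : ∀ n, u n ≠ 0 ∧ L (u n) = 0 := fun n =>
    ⟨Finset.prod_ne_zero_iff.2 fun d _ => pow_ne_zero _ (hx n d).ne_zero, by
      rw [log_prod hL _ _ fun d => pow_ne_zero _ (hx n d).ne_zero]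
      exact Finset.sum_eq_zero fun d _ => by
        rw [log_pow hL (hx n d).ne_zero, log_root hL (hx n d), mul_zero]⟩
  have hev' : ∀ᶠ n in U, ∀ i, ζ n i * u n = η' i * ∏ d, (x n d : PadicAlgCl p) ^ e i d :=
    hev.mono fun n hn i => by simpa [z, u] using congrArg Subtype.val (hn i)
  have : FiniteDimensional ℚ_[p]
      (IntermediateField.adjoin ℚ_[p] (Set.range fun i => (η' i : PadicAlgCl p))) :=
    IntermediateField.finiteDimensional_adjoin fun _ _ => Algebra.IsIntegral.isIntegral _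
  let K1 := K ⊔ IntermediateField.adjoin ℚ_[p] (Set.range fun i => (η' i : PadicAlgCl p))
  have hK1 : ∀ i, (η' i : PadicAlgCl p) ∈ K1 := fun i =>
    (le_sup_right : _ ≤ K1) (IntermediateField.subset_adjoin _ _ ⟨i, rfl⟩)
  let D := ∑ i, (e i).sum fun _ n => n
  have hpol : ∀ n i, Pol K1 D (fun d => (x n d : PadicAlgCl p))
      (η' i * ∏ d, (x n d : PadicAlgCl p) ^ e i d) := fun n i =>
    ⟨monomial (e i) ⟨_, hK1 i⟩, (totalDegree_monomial_le _ _).trans
      (Finset.single_le_sum (f := fun i => (e i).sum fun _ n => n) (fun _ _ => Nat.zero_le _)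
        (Finset.mem_univ i)), by
      rw [aeval_monomial, Finsupp.prod_pow]
      rfl⟩
  let R : Subring O := (algebraicClosure ℚ (PadicAlgCl p)).toSubalgebra.toSubring.comap O.subtype
  have hR1 : ∀ k i, b' k i ∈ R := fun k i => mem_algebraicClosure_iff.2
    (((isAlgebraic_natCast p).pow _).mul (hb1 k i))
  have hR2 : ∀ i, η' i ∈ R := fun i => mem_algebraicClosure_iff.2 (hη i).isAlgebraic
  refine elim U (fun n d => (x n d : PadicAlgCl p)) (fun n k => L (α n k)) u (fun n => (hu n).1) D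
    (fun s => ?_) M (Eventually.of_forall hdet) Finset.univ K1 ∅ A B (by simp) ?_
  · rcases hs s Subtype.val with h1 | ⟨r, r', w, w', hr, h1⟩
    · refine Or.inl fun K' _ D' => ?_
      have h2 := unif_ind h hb (fun n => Sum.elim (x n) fun k : s => l n k) (fun P hP => h1 P (by
        rw [← hP]
        congr 1
        funext d
        cases d with
        | inl d => exact (hxa d).symm
        | inr d => rfl)) K' D'
      filter_upwards [h2, eventually_all.2 hl] with n h3 h4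
      convert h3 using 1
      funext d
      cases d with
      | inl d => rfl
      | inr d => exact (h4 d).1.symm
    · obtain ⟨κ, hκ, hκa, h2⟩ := rel_of_prop hb hL R (fun c => mem_algebraicClosure_iff.1 c.2)
        (fun k : s => fp e fun i => (⟨_, hR1 k i⟩ * ⟨_, hR2 i⟩ : R)) x hx (fun n k => α n k)
        (fun n k => hα2 n k) u hu (hev'.mono fun n hn k => by
          rw [ev_fp _ _ e _ _ (ζ n) (u n) hn]
          simp [α, z]) r r' w w' (by
          simpa only [map_fp, map_mul, RingHom.comp_apply, Subring.subtype_apply, hη'] using h1)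
      obtain ⟨o, ho⟩ := Function.ne_iff.1 hr
      refine Or.inr ⟨κ, fun k => if hk : k ∈ s then (r ⟨k, hk⟩ : ℤ) - r' ⟨k, hk⟩ else 0, o, o.2, ?_,
        hκ, hκa, h2.mono fun n hn => ?_⟩
      · simp only [dif_pos o.2]
        exact sub_ne_zero.2 (by exact_mod_cast ho)
      · rw [← hn, ← Finset.sum_coe_sort s]
        exact Finset.sum_congr rfl fun k _ => by simp only [dif_pos k.2]
  · refine hev'.mono fun n hn => ⟨fun i i' => ⟨alg_mem_Vsp (hA n i i').1, ?_⟩,
      fun i i' k => ⟨(hB n i i' k).1, ?_⟩, fun i i' => by simp only [hM, hα3]⟩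
    · exact Pol.of_span (hpol n) le_sup_left _ (fun i => by rw [mul_comm, hn]) (hA n i i').2
    · exact Pol.of_span (hpol n) le_sup_left _ (fun i => by rw [mul_comm, hn]) (hB n i i' k).2

end Pool.Agent.Work.MP_dd0d16_nt.T
end

-- merged part: Pool.Agent.Work.MP_dd0d16_nt.T.Final
section
/-!
The compactness argument.
-/

set_option autoImplicit false

namespace Pool.Agent.Work.MP_dd0d16_nt.T

open Filter

variable {p : ℕ} [Fact p.Prime] {L : PadicAlgCl p → PadicAlgCl p}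

theorem fourExp_of_dep {M : Fin 2 → Fin 2 → PadicAlgCl p} (h : Dep M) : FourExp (Matrix.of M) := by
  intro h1 h2 _
  rcases h with ⟨u, v, t1, t2, t3, t4⟩ | ⟨u, v, t1, t2, t3, t4⟩
  · exact t4 (h1 u v t1 t2 t3)
  · exact t4 (h2 u v t1 t2 t3)

theorem det_of_not {M : Fin 2 → Fin 2 → PadicAlgCl p} (h : ¬ FourExp (Matrix.of M)) :
    M 0 0 * M 1 1 = M 0 1 * M 1 0 := by
  by_contra h1
  refine h fun _ _ h2 => h1 ?_
  rwa [Matrix.det_fin_two, sub_eq_zero] at h2

theorem fixed (hL : IsLog L) (K : IntermediateField ℚ_[p] (PadicAlgCl p))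
    [FiniteDimensional ℚ_[p] K] (n B : ℕ) (t : Fin n → Fin B → PadicAlgCl p)
    (ht : ∀ k j, IsAlgebraic ℚ (t k j) ∧
      t k j ∈ IntermediateField.adjoin ℚ_[p] {z : PadicAlgCl p | Root z}) :
    ∃ S : Finset (PadicAlgCl p), (∀ s ∈ S, s ≠ 0 ∧ IsAlgebraic ℚ s) ∧
      ∀ (z : Fin n → Fin B → PadicAlgCl p) (a : Fin 2 → Fin 2 → PadicAlgCl p)
        (c : Fin 2 → Fin 2 → Fin n → PadicAlgCl p), (∀ k j, Root (z k j)) →
        (∀ k, ∑ j, t k j * z k j ≠ 0) → (∀ i j, IsAlgebraic ℚ (a i j) ∧ Comb K B (a i j)) →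
        (∀ i j k, IsAlgebraic ℚ (c i j k) ∧ Comb K B (c i j k)) →
        FourExp (Matrix.of fun i j => a i j + ∑ k, c i j k * L (∑ l, t k l * z k l)) ∨
          ∀ i j, a i j + ∑ k, c i j k * L (∑ l, t k l * z k l) ∈ Vsp L S := by
  classical
  by_contra hh
  simp only [not_exists, not_and, not_forall, not_or] at hh
  let G := {s : PadicAlgCl p // s ≠ 0 ∧ IsAlgebraic ℚ s}
  choose z a c hz hx ha hc h1 h2 using fun m : Finset G =>
    hh (m.map (Function.Embedding.subtype _)) (by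
      intro s hs
      obtain ⟨s, -, rfl⟩ := Finset.mem_map.1 hs
      exact s.2)
  choose ta za hza ea using fun m i j => (ha m i j).2
  choose tc zc hzc ec using fun m i j k => (hc m i j k).2
  let ζ : Finset G → (Fin n × Fin B) ⊕ (Fin 2 × Fin 2 × Fin B) ⊕ (Fin 2 × Fin 2 × Fin n × Fin B) →
      PadicAlgCl p := fun m => Sum.elim (fun q => z m q.1 q.2) (Sum.elim
        (fun q => za m q.1 q.2.1 q.2.2) fun q => zc m q.1 q.2.1 q.2.2.1 q.2.2.2)
  let b : Fin n → (Fin n × Fin B) ⊕ (Fin 2 × Fin 2 × Fin B) ⊕ (Fin 2 × Fin 2 × Fin n × Fin B) →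
      PadicAlgCl p := fun k => Sum.elim (fun q => if q.1 = k then t k q.2 else 0) 0
  have e : ∀ m k, ∑ i, b k i * ζ m i = ∑ l, t k l * z m k l := fun m k => by
    simp [b, ζ, Fintype.sum_prod_type]
  obtain ⟨S, hS, h⟩ := seq_main hL (Ultrafilter.of atTop) ζ
    (by rintro m (q | q | q); exacts [hz _ _ _, (hza _ _ _ _).2, (hzc _ _ _ _ _).2]) b
    (by
      rintro k (q | q)
      · simp only [b, Sum.elim_inl]
        split_ifs
        exacts [(ht _ _).1, isAlgebraic_zero]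
      · exact isAlgebraic_zero)
    (by
      rintro k (q | q)
      · simp only [b, Sum.elim_inl]
        split_ifs
        exacts [(ht _ _).2, zero_mem _]
      · exact zero_mem _)
    (fun m k => e m k ▸ hx m k) K a c
    (fun m i j => ⟨(ha m i j).1, ea m i j ▸ Submodule.sum_mem _ fun l _ =>
      Submodule.smul_mem _ (⟨_, (hza m i j l).1⟩ : K)
        (Submodule.subset_span ⟨.inr (.inl (i, j, l)), rfl⟩)⟩)
    (fun m i j k => ⟨(hc m i j k).1, ec m i j k ▸ Submodule.sum_mem _ fun l _ =>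
      Submodule.smul_mem _ (⟨_, (hzc m i j k l).1⟩ : K)
        (Submodule.subset_span ⟨.inr (.inr (i, j, k, l)), rfl⟩)⟩)
    (fun m i j => a m i j + ∑ k, c m i j k * L (∑ l, t k l * z m k l))
    (fun m i j => by simp only [e]) fun m => det_of_not (h1 m)
  obtain ⟨m, h3, h4⟩ := (h.and ((Ultrafilter.of_le atTop)
    (eventually_ge_atTop (S.subtype fun s => s ≠ 0 ∧ IsAlgebraic ℚ s)))).exists
  rcases h3 with h3 | h3
  · exact h1 m (fourExp_of_dep h3)
  · obtain ⟨i, j, h5⟩ := h2 m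
    refine h5 (Vsp_mono (fun s hs => ?_) (h3 i j))
    exact Finset.mem_map.2 ⟨⟨s, hS s hs⟩, h4 (Finset.mem_subtype.2 hs), rfl⟩

theorem final (hL : IsLog L) (K : IntermediateField ℚ_[p] (PadicAlgCl p))
    [FiniteDimensional ℚ_[p] K] (T : Finset (PadicAlgCl p))
    (hT : ∀ t ∈ T, IsAlgebraic ℚ t ∧
      t ∈ IntermediateField.adjoin ℚ_[p] {z : PadicAlgCl p | Root z}) (n B : ℕ) :
    ∃ S : Finset (PadicAlgCl p), (∀ s ∈ S, s ≠ 0 ∧ IsAlgebraic ℚ s) ∧
      ∀ (x : Fin n → PadicAlgCl p) (a : Fin 2 → Fin 2 → PadicAlgCl p)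
        (c : Fin 2 → Fin 2 → Fin n → PadicAlgCl p), (∀ k, x k ≠ 0 ∧ Comb T B (x k)) →
        (∀ i j, IsAlgebraic ℚ (a i j) ∧ Comb K B (a i j)) →
        (∀ i j k, IsAlgebraic ℚ (c i j k) ∧ Comb K B (c i j k)) →
        FourExp (Matrix.of fun i j => a i j + ∑ k, c i j k * L (x k)) ∨
          ∀ i j, a i j + ∑ k, c i j k * L (x k) ∈ Vsp L S := by
  classical
  choose S hS h using fun t : Fin n → Fin B → T =>
    fixed hL K n B (fun k j => t k j) fun k j => hT _ (t k j).2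
  refine ⟨Finset.univ.biUnion S, fun s hs => ?_, fun x a c hx ha hc => ?_⟩
  · obtain ⟨t, -, ht⟩ := Finset.mem_biUnion.1 hs
    exact hS t s ht
  choose t z hz e using fun k => (hx k).2
  have := h (fun k j => ⟨t k j, (hz k j).1⟩) z a c (fun k j => (hz k j).2)
    (fun k => e k ▸ (hx k).1) ha hc
  simp only [← e] at this
  exact this.imp_right fun h1 i j =>
    Vsp_mono (Finset.subset_biUnion_of_mem S (Finset.mem_univ _)) (h1 i j)

end Pool.Agent.Work.MP_dd0d16_nt.T
end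
end

-- merged part: Pool.Agent.Work.MP_dd0d16_nt.R.ACore
section
-- merged part: Pool.Agent.Work.MP_dd0d16_nt.R.AGrad
section
/-!
Calculus of gradients for abstract tests.

PLAN. Copy the proofs of `Gd.add`, `Gd.neg`, `Gd.mul`, `Gd.const`, `Gd.unique`, `Test.dlog`,
`Gd.teich`, `Gd.log` (T/Grad) and `Gd.sum` (T/Core): `teichmuller p` becomes the monoid map `T`,
`map τ`, `map κ`, `rho N` become `τ`, `κ`, `ρ`; in `AGd.log` take `N` from `ATest.nil` (we may
replace it by `N + 1`).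
-/

set_option autoImplicit false

namespace Pool.Agent.Work.MP_dd0d16_nt.T

variable {R0 RF R : Type} [CommRing R0] [CommRing RF] [CommRing R] {m p : ℕ} {τ : RF →+* R}
  {κ : R0 →+* RF} {A : Fin m → RF}

theorem AGd.add {y y' : R} {g g' : Fin m → R} (h : AGd p τ κ A y g) (h' : AGd p τ κ A y' g') :
    AGd p τ κ A (y + y') (g + g') := by
  intro Q _ ρ Ψ δ hT
  obtain ⟨x, h1, h2⟩ := h Q ρ Ψ δ hT
  obtain ⟨x', h1', h2'⟩ := h' Q ρ Ψ δ hT
  refine ⟨x + x', ?_, ?_⟩
  · rw [map_add, TrivSqZeroExt.fst_add, h1, h1', map_add]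
  · rw [map_add, TrivSqZeroExt.snd_add, h2, h2', ← Finset.sum_add_distrib]
    exact Finset.sum_congr rfl fun i _ => by rw [Pi.add_apply, map_add, add_mul]

theorem AGd.neg {y : R} {g : Fin m → R} (h : AGd p τ κ A y g) : AGd p τ κ A (-y) (-g) := by
  intro Q _ ρ Ψ δ hT
  obtain ⟨x, h1, h2⟩ := h Q ρ Ψ δ hT
  refine ⟨-x, ?_, ?_⟩
  · rw [map_neg, TrivSqZeroExt.fst_neg, h1, map_neg]
  · rw [map_neg, TrivSqZeroExt.snd_neg, h2, ← Finset.sum_neg_distrib]
    exact Finset.sum_congr rfl fun i _ => by rw [Pi.neg_apply, map_neg, neg_mul]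

theorem AGd.mul {y y' : R} {g g' : Fin m → R} (h : AGd p τ κ A y g) (h' : AGd p τ κ A y' g') :
    AGd p τ κ A (y * y') (fun i => y * g' i + y' * g i) := by
  intro Q _ ρ Ψ δ hT
  obtain ⟨x, h1, h2⟩ := h Q ρ Ψ δ hT
  obtain ⟨x', h1', h2'⟩ := h' Q ρ Ψ δ hT
  refine ⟨x * x', ?_, ?_⟩
  · rw [map_mul, TrivSqZeroExt.fst_mul, h1, h1', map_mul]
  · rw [map_mul, DualNumber.snd_mul, h1, h1', h2, h2', Finset.mul_sum, Finset.sum_mul,
      ← Finset.sum_add_distrib]
    refine Finset.sum_congr rfl fun i _ => ?_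
    rw [map_add, map_mul, map_mul]
    ring

theorem AGd.const (c : R0) : AGd p τ κ A (τ (κ c)) 0 := by
  intro Q _ ρ Ψ δ hT
  refine ⟨κ c, hT.fst _, ?_⟩
  rw [hT.const]
  exact (Finset.sum_eq_zero fun i _ => by rw [Pi.zero_apply, map_zero, zero_mul]).symm

theorem AGd.sum {J : Type} (s : Finset J) {y : J → R} {g : J → Fin m → R}
    (h : ∀ j, AGd p τ κ A (y j) (g j)) : AGd p τ κ A (∑ j ∈ s, y j) (∑ j ∈ s, g j) := by
  classical
  induction s using Finset.induction_on with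
  | empty =>
    have := AGd.const (p := p) (τ := τ) (κ := κ) (A := A) 0
    rwa [map_zero, map_zero] at this
  | insert j S hj ih =>
    rw [Finset.sum_insert hj, Finset.sum_insert hj]
    exact (h j).add ih

theorem AGd.unique (hs : ASep p τ κ A) {g : Fin m → R} (h : AGd p τ κ A 0 g) : g = 0 := by
  refine hs g fun Q _ ρ Ψ δ hT => ?_
  obtain ⟨x, h1, h2⟩ := h Q ρ Ψ δ hT
  rw [map_zero] at h1
  rw [← h2, hT.ker x h1, TrivSqZeroExt.snd_zero]

variable {k0 F : Type} [Field k0] [Field F] {T : F →* RF} {T0 : k0 →* R0} {κ0 : k0 →+* F}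
  {a : Fin m → F}

theorem AGrad_dlog {Q : Type} [CommRing Q] {ρ : R →+* Q} {Ψ : RF →+* DualNumber Q} {δ : Fin m → Q}
    (h : ATest p τ κ (fun i => T (a i)) ρ Ψ δ) (hT : ∀ η, T (κ0 η) = κ (T0 η))
    (ha : ∀ i, a i ≠ 0) {b : F} {η : k0} {e : Fin m → ℤ} (he : b = κ0 η * ∏ i, a i ^ e i) :
    (Ψ (T b)).snd = (Ψ (T b)).fst * ∑ i, (e i : Q) * δ i := by
  have key : ∀ S : Finset (Fin m), (Ψ (T (κ0 η * ∏ i ∈ S, a i ^ e i))).snd =
      (Ψ (T (κ0 η * ∏ i ∈ S, a i ^ e i))).fst * ∑ i ∈ S, (e i : Q) * δ i := by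
    intro S
    induction S using Finset.induction_on with
    | empty =>
      rw [Finset.prod_empty, Finset.sum_empty, mul_one, mul_zero, hT, h.const]
    | insert j S hj ih =>
      have h1 : (Ψ (T (a j ^ e j))).snd = (Ψ (T (a j ^ e j))).fst * (e j * δ j) :=
        Grad_dl (Ψ.toMonoidHom.comp T) (ha j) (h.teich j) (e j)
      rw [Finset.prod_insert hj, Finset.sum_insert hj, mul_left_comm, map_mul, map_mul,
        DualNumber.snd_mul, TrivSqZeroExt.fst_mul, ih, h1]
      ring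
  rw [he]
  exact key _

theorem AGd.teich (hT : ∀ η, T (κ0 η) = κ (T0 η)) (ha : ∀ i, a i ≠ 0) {b : F} {η : k0}
    {e : Fin m → ℤ} (he : b = κ0 η * ∏ i, a i ^ e i) :
    AGd p τ κ (fun i => T (a i)) (τ (T b)) (fun i => e i * τ (T b)) := by
  intro Q _ ρ Ψ δ hA
  have h1 : (Ψ (T b)).fst = ρ (τ (T b)) := hA.fst _
  refine ⟨T b, h1, ?_⟩
  rw [AGrad_dlog hA hT ha he, h1, Finset.mul_sum]
  refine Finset.sum_congr rfl fun i _ => ?_
  rw [map_mul, map_intCast]
  ring

theorem AGd.log [IsDomain R] [CharZero R] (hp : p ≠ 0) (hT : ∀ η, T (κ0 η) = κ (T0 η))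
    (ha : ∀ i, a i ≠ 0) {b : F} {η : k0} {e : Fin m → ℤ} (he : b = κ0 η * ∏ i, a i ^ e i) {v : ℕ}
    {x : RF} {α l : R} {γ : Fin m → R} (hα : α = p ^ v * τ (T b) * (1 + p * τ x))
    (hl : WLog p (τ x) l) (hG : AGd p τ κ (fun i => T (a i)) α γ) :
    AGd p τ κ (fun i => T (a i)) (α * l) (fun i => γ i - e i * α + l * γ i) := by
  intro Q _ ρ Ψ δ hA
  obtain ⟨N, hq⟩ := hA.nil
  obtain ⟨Z, hZ⟩ := Grad_Z hp N
  obtain ⟨l0, hl0⟩ : ∃ l0, l0 = Z.eval₂ (Int.castRingHom _) x := ⟨_, rfl⟩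
  have h1 : (Ψ l0).fst = ρ l := by
    obtain ⟨w, hw⟩ := hl N
    have h2 : Z.eval₂ (Int.castRingHom _) (τ x) = l + p ^ N * w := by
      refine mul_left_cancel₀ (pow_ne_zero N (Nat.cast_ne_zero.2 hp : (p : R) ≠ 0)) ?_
      rw [(hZ _ (τ x)).1] at hw
      linear_combination hw
    rw [hA.fst, hl0, Grad_hom, h2, map_add, map_mul, map_pow, map_natCast, hq, zero_mul, add_zero]
  have h2 : (1 + p * (Ψ x).fst) * (Ψ l0).snd = p * (Ψ x).snd := by
    have h3 := (hZ _ (Ψ x).fst).1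
    rw [hq, zero_mul, add_zero,
      ← Nat.sub_add_cancel (Nat.one_le_iff_ne_zero.2 (pow_ne_zero N hp)), pow_succ] at h3
    rw [hl0, Grad_hom, Grad_snd, (hZ _ _).2]
    linear_combination (p * (Ψ x).snd) * h3
  obtain ⟨y, h3, h4⟩ := hG Q ρ Ψ δ hA
  have h5 : (Ψ (p ^ v * T b * (1 + p * x))).fst = ρ α := by
    rw [hA.fst, hα]
    simp only [map_mul, map_pow, map_natCast, map_add, map_one]
  have h6 : Ψ y = Ψ (p ^ v * T b * (1 + p * x)) := by
    rw [← sub_eq_zero, ← map_sub]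
    refine hA.ker _ ?_
    rw [map_sub, TrivSqZeroExt.fst_sub, h3, h5, sub_self]
  refine ⟨y * l0, by rw [map_mul, TrivSqZeroExt.fst_mul, h3, h1, map_mul], ?_⟩
  have h7 := AGrad_dlog hA hT ha he
  have h8 : ∑ i, ρ (γ i - (e i : R) * α + l * γ i) * δ i =
      (Ψ y).snd - ρ α * ∑ i, (e i : Q) * δ i + (Ψ y).snd * ρ l := by
    rw [h4, Finset.mul_sum, Finset.sum_mul, ← Finset.sum_sub_distrib, ← Finset.sum_add_distrib]
    refine Finset.sum_congr rfl fun i _ => ?_
    rw [map_add, map_sub, map_mul, map_mul, map_intCast]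
    ring
  rw [h8, map_mul, DualNumber.snd_mul, h1, ← h3, add_left_inj, h6, ← Nat.cast_pow (α := RF) p v]
  simp only [map_mul, map_natCast, map_add, map_one, DualNumber.snd_mul, TrivSqZeroExt.fst_mul,
    TrivSqZeroExt.fst_add, TrivSqZeroExt.snd_add, TrivSqZeroExt.fst_natCast,
    TrivSqZeroExt.snd_natCast, TrivSqZeroExt.fst_one, TrivSqZeroExt.snd_one, h7]
  linear_combination ((p ^ v : ℕ) : Q) * (Ψ (T b)).fst * h2

end Pool.Agent.Work.MP_dd0d16_nt.T
end

-- merged part: Pool.Agent.Work.MP_dd0d16_nt.R.ACore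
section
/-!
Derivations on the field generated by constants, lifts and logarithms, abstract version.

PLAN. Copy the proof of `core` (T/Core) with `Ω = FractionRing R`, `c0 = φ.comp (τ.comp κ)`,
`A0 i = φ (τ (T (a i)))`. `τ (T u) ≠ 0` for `u ≠ 0` because `T u * T u⁻¹ = 1`; for powers with integer
exponents see `map_teich_zpow`.
-/

set_option autoImplicit false

namespace Pool.Agent.Work.MP_dd0d16_nt.T

open MvPolynomial

variable {R0 RF R : Type} [CommRing R0] [CommRing RF] [CommRing R] {m p : ℕ} {τ : RF →+* R}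
  {κ : R0 →+* RF} {k0 F : Type} [Field k0] [Field F] {T : F →* RF} {T0 : k0 →* R0}
  {κ0 : k0 →+* F} {a : Fin m → F}

theorem ACore_zpow {Ω : Type} [Field Ω] (f : F →* Ω) {b : F} (hb : b ≠ 0) (e : ℤ) :
    f (b ^ e) = f b ^ e := by
  have h2 := congrArg Units.val (map_zpow (Units.map f) (Units.mk0 b hb) e)
  rw [Units.val_zpow_eq_zpow_val, Units.coe_map, Units.coe_map, Units.val_zpow_eq_zpow_val] at h2
  exact h2

theorem ACore_ne [Nontrivial R] {u : F} (hu : u ≠ 0) : τ (T u) ≠ 0 := fun h => by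
  have h1 : τ (T u) * τ (T u⁻¹) = 1 := by
    rw [← map_mul, ← map_mul, mul_inv_cancel₀ hu, map_one, map_one]
  rw [h, zero_mul] at h1
  exact zero_ne_one h1

theorem acore [IsDomain R] [CharZero R] (hp : p ≠ 0) (hp' : ∀ x : R, 1 + p * x ≠ 0)
    (hinj : Function.Injective (τ.comp κ)) (hT : ∀ η, T (κ0 η) = κ (T0 η)) (ha : ∀ i, a i ≠ 0)
    (hs : ASep p τ κ fun i => T (a i)) {J I : Type} [Fintype J]
    (t : J → F) (η : J → k0) (e : J → Fin m → ℤ)
    (he : ∀ j, t j = κ0 (η j) * ∏ i, a i ^ e j i) (g : I → F) (hg : ∀ i, g i ≠ 0) (η' : I → k0)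
    (ε : I → Fin m → ℤ) (hε : ∀ i, g i = κ0 (η' i) * ∏ b, a b ^ ε i b)
    (b : I → J → R0) (v : I → ℕ) (x : I → RF) (l : I → R)
    (hα : ∀ i, ∑ j, τ (κ (b i j)) * τ (T (t j)) = p ^ v i * τ (T (g i)) * (1 + p * τ (x i)))
    (hl : ∀ i, WLog p (τ (x i)) (l i)) (N0 : ℕ) (e' : J → Fin m →₀ ℕ)
    (he' : ∀ j i, (e' j i : ℤ) = e j i + N0) {I' : Type} [Fintype I'] (s : I' → I) :
    (∀ P : MvPolynomial (Fin m ⊕ I') R0, eval₂ (τ.comp κ)
      (Sum.elim (fun i => τ (T (a i))) fun i => l (s i)) P = 0 → P = 0) ∨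
      ∃ (r r' : I' → ℕ) (w w' : Fin m →₀ ℕ), r ≠ r' ∧
        Prop2 (monomial w 1 * ∏ i, fp e' (fun j => b (s i) j * T0 (η j)) ^ r i)
          (monomial w' 1 * ∏ i, fp e' (fun j => b (s i) j * T0 (η j)) ^ r' i) := by
  classical
  let Ω := FractionRing R
  let φ := algebraMap R Ω
  have hφ : Function.Injective φ := IsFractionRing.injective _ _
  have : CharZero Ω := algebraRat.charZero Ω
  let c0 : R0 →+* Ω := φ.comp (τ.comp κ)
  have hc0 : ∀ z, c0 z = φ (τ (κ z)) := fun z => rfl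
  let A0 : Fin m → Ω := fun i => φ (τ (T (a i)))
  have hT0 : ∀ {u : F}, u ≠ 0 → φ (τ (T u)) ≠ 0 := fun hu =>
    (map_ne_zero_iff φ hφ).2 (ACore_ne hu)
  have hmon : ∀ (u : F) (n : k0) (d : Fin m → ℤ), u = κ0 n * ∏ i, a i ^ d i →
      φ (τ (T u)) = c0 (T0 n) * ∏ i, A0 i ^ d i := by
    rintro u n d rfl
    rw [hc0, ← hT, map_mul, map_mul, map_mul, map_prod, map_prod, map_prod]
    congr 1
    exact Finset.prod_congr rfl fun i _ =>
      ACore_zpow (((φ.comp τ : RF →+* Ω) : RF →* Ω).comp T) (ha i) (d i)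
  let S : Set Ω := Set.range c0 ∪ Set.range A0 ∪ Set.range fun i => φ (l i)
  have m1 : ∀ z, c0 z ∈ Subfield.closure S := fun z =>
    Subfield.subset_closure (Or.inl (Or.inl ⟨z, rfl⟩))
  have m2 : ∀ i, A0 i ∈ Subfield.closure S := fun i =>
    Subfield.subset_closure (Or.inl (Or.inr ⟨i, rfl⟩))
  have m3 : ∀ i, φ (l i) ∈ Subfield.closure S := fun i =>
    Subfield.subset_closure (Or.inr ⟨i, rfl⟩)
  have m4 : ∀ (u : F) (n : k0) (d : Fin m → ℤ), u = κ0 n * ∏ i, a i ^ d i →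
      φ (τ (T u)) ∈ Subfield.closure S := fun u n d h => by
    rw [hmon u n d h]
    exact mul_mem (m1 _) (prod_mem fun i _ => zpow_mem (m2 i) _)
  let α : I → R := fun i => ∑ j, τ (κ (b i j)) * τ (T (t j))
  let γ : I → Fin m → R := fun i => ∑ j, fun d => τ (κ (b i j)) * (e j d * τ (T (t j)))
  have hG : ∀ i, AGd p τ κ (fun i => T (a i)) (α i) (γ i) := fun i => AGd.sum _ fun j => by
    simpa using (AGd.const (b i j)).mul (AGd.teich (p := p) (τ := τ) hT ha (he j))
  have hα0 : ∀ i, φ (α i) ≠ 0 := fun i => by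
    refine (map_ne_zero_iff φ hφ).2 ?_
    change ∑ j, _ ≠ 0
    rw [hα]
    exact mul_ne_zero (mul_ne_zero (pow_ne_zero _ (Nat.cast_ne_zero.2 hp)) (ACore_ne (hg i)))
      (hp' _)
  have m5 : ∀ i, φ (α i) ∈ Subfield.closure S := fun i => by
    simp only [α, map_sum, map_mul]
    exact sum_mem fun j _ => mul_mem (m1 _) (m4 _ _ _ (he j))
  have m6 : ∀ i d, φ (γ i d) ∈ Subfield.closure S := fun i d => by
    simp only [γ, Finset.sum_apply, map_sum, map_mul, map_intCast]
    exact sum_mem fun j _ => mul_mem (m1 _) (mul_mem (intCast_mem _ _) (m4 _ _ _ (he j)))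
  have hone : AGd p τ κ (fun i => T (a i)) (1 : R) 0 := by
    simpa using AGd.const (p := p) (τ := τ) (κ := κ) (A := fun i => T (a i)) (1 : R0)
  have g1 : ∀ z, Gf (AGd p τ κ fun i => T (a i)) (c0 z) fun _ => 0 := fun z => by
    rw [hc0]
    simpa using Gf.of (Ω := Ω) hone (AGd.const z)
  have g2 : ∀ i, Gf (AGd p τ κ fun i => T (a i)) (A0 i) fun d => if d = i then A0 i else 0 :=
    fun i => by
    have h1 := Gf.of (Ω := Ω) hone (AGd.teich (τ := τ) (b := a i) (η := 1) (e := Pi.single i 1)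
      hT ha (by
        rw [map_one, one_mul, Finset.prod_eq_single i]
        · simp
        · intro d _ hd
          simp [hd]
        · simp))
    convert h1 using 2 with d
    split_ifs with h
    · simp [h, A0, φ]
    · simp [h]
  have g3 : ∀ i, Gf (AGd p τ κ fun i => T (a i)) (φ (l i))
      fun d => φ (γ i d) / φ (α i) - ε i d := fun i =>
    ⟨_, _, _, _, AGd.log hp hT ha (hε i) (hα i) (hl i) (hG i), hG i, hα0 i,
      by rw [map_mul, mul_comm], fun d => by
        have := hα0 i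
        simp only [map_add, map_sub, map_mul, map_intCast]
        change _ * φ (α i) + _ = _ - _ * φ (α i) + _
        rw [sub_mul, div_mul_cancel₀ _ this]⟩
  obtain ⟨θ, hθ⟩ := exists_theta hφ (AGd p τ κ fun i => T (a i)) (fun _ _ _ _ => AGd.add)
    (fun _ _ => AGd.neg) (fun _ _ _ _ => AGd.mul) hone (fun _ => AGd.unique hs) S (by
      rintro _ ((⟨z, rfl⟩ | ⟨i, rfl⟩) | ⟨i, rfl⟩)
      · exact ⟨_, g1 z, fun _ => zero_mem _⟩
      · refine ⟨_, g2 i, fun d => ?_⟩
        split_ifs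
        exacts [m2 i, zero_mem _]
      · exact ⟨_, g3 i, fun d => sub_mem (div_mem (m6 i d) (m5 i)) (intCast_mem _ _)⟩)
  let B := Subfield.closure S
  let c : R0 →+* B := c0.codRestrict B m1
  let A : Fin m → B := fun i => ⟨A0 i, m2 i⟩
  let αB : I → B := fun i => ⟨φ (α i), m5 i⟩
  let gB : I → B := fun i => ⟨_, m4 _ _ _ (hε i)⟩
  have hαB : ∀ i, αB i ≠ 0 := fun i h => hα0 i (congrArg Subtype.val h)
  have hgB : ∀ i, gB i ≠ 0 := fun i h => hT0 (hg i) (congrArg Subtype.val h)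
  have hA : ∀ i, A i ≠ 0 := fun i h => hT0 (ha i) (congrArg Subtype.val h)
  have hcinj : Function.Injective c := fun z z' h => hinj (hφ (congrArg Subtype.val h))
  have h3 : ∀ i, gB i = c (T0 (η' i)) * ∏ d, A d ^ ε i d := fun i =>
    B.subtype.injective (by
      simp only [map_mul B.subtype, map_prod B.subtype, map_zpow₀ B.subtype]
      exact hmon _ _ _ (hε i))
  refine Or.imp_left (fun h P hP => h P (Subtype.ext ?_)) (abs_core θ A hA (fun d i => Subtype.ext (by
      rw [hθ (A i) _ (g2 i)]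
      split_ifs <;> rfl)) c hcinj (fun d z => Subtype.ext (hθ (c z) _ (g1 z) d))
    (fun i => fp e' fun j => b (s i) j * T0 (η j)) (fun i => αB (s i) / gB (s i))
    (fun i => ⟨φ (l (s i)), m3 _⟩) (fun i => T0 (η' (s i))) (fun i d => ε (s i) d + N0)
    (fun i => div_ne_zero (hαB _) (hgB _))
    (fun i h => hgB (s i) (by rw [h3, h, zero_mul]))
    (fun i => ?_) (fun d i => ?_))
  · have h1 := congrArg φ hP
    rw [eval₂_comp_left, map_zero] at h1
    have h2 := eval₂_comp_left B.subtype c (Sum.elim A fun i => (⟨φ (l (s i)), m3 _⟩ : B)) P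
    refine h2.trans (Eq.trans ?_ h1)
    congr 1
    funext u
    cases u <;> rfl
  · generalize s i = i
    have h1 : ∀ j, c (T0 (η j)) * ∏ d, A d ^ e' j d =
        ⟨_, m4 _ _ _ (he j)⟩ * ∏ d, A d ^ (N0 : ℤ) := by
      intro j
      have h2 : (⟨_, m4 _ _ _ (he j)⟩ : B) = c (T0 (η j)) * ∏ d, A d ^ e j d :=
        B.subtype.injective (by
          simp only [map_mul B.subtype, map_prod B.subtype, map_zpow₀ B.subtype]
          exact hmon _ _ _ (he j))
      rw [h2, mul_assoc, ← Finset.prod_mul_distrib]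
      congr 1
      refine Finset.prod_congr rfl fun d _ => ?_
      rw [← zpow_add₀ (hA d), ← he', zpow_natCast]
    have h4 : αB i = ∑ j, c (b i j) * ⟨_, m4 _ _ _ (he j)⟩ :=
      Subtype.ext (by
        rw [AddSubmonoidClass.coe_finsetSum]
        simp only [αB, α, map_sum, map_mul]
        rfl)
    simp only [fp, eval₂_sum, eval₂_monomial, Finsupp.prod_pow, map_mul c, mul_assoc, h1,
      zpow_add₀ (hA _), Finset.prod_mul_distrib]
    rw [← mul_assoc (c _), ← h3, ← mul_assoc, div_mul_cancel₀ _ (hgB i), h4, Finset.sum_mul]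
    simp only [mul_assoc]
  · generalize s i = i
    have h1 := hθ (αB i) _ (Gf.of hone (hG i)) d
    have h2 := hθ (gB i) _ (Gf.of hone (AGd.teich hT ha (hε i))) d
    have h6 := hθ ⟨φ (l i), m3 i⟩ _ (g3 i) d
    have h4 : θ d (gB i) = ε i d * gB i := Subtype.ext (by
      rw [h2, map_mul, map_intCast]
      rfl)
    have h5 : θ d ⟨φ (l i), m3 i⟩ = θ d (αB i) / αB i - ε i d := Subtype.ext (by
      rw [h6, Subfield.coe_sub, Subfield.coe_div, h1]
      rfl)
    have := hαB i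
    have := hgB i
    rw [h5, Derivation.leibniz_div, h4]
    simp only [smul_eq_mul]
    field_simp

end Pool.Agent.Work.MP_dd0d16_nt.T
end
end

-- merged part: Pool.Agent.Work.MP_dd0d16_nt.R.ThmD2
section
/-!
Algebraic independence of Teichmueller lifts and logarithms, ramified coefficients.

PLAN. `shift'`: `x = map τ (β.shift s)`; compare the coefficients of index `i + s`
(`mul_pow_charP_coeff_succ`, `iterateFrobenius_inj`, see `shift` in T/Grad).
`thmD2`: follow `thmD` (T/ThmD). Now `F` is generated by the `p ^ L`-th roots `u j` of the `t j` and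
`u' i` of the `g i`, so `g i = τ (g' i)` with `g' i = u' i ^ p ^ L`. Expand the `M`-th power as a sum
over `f : Fin M → J` (`Fintype.sum_pow`, `Finset.prod_univ_sum`) with coefficients
`b' i f = ∏ l, b i (f l)` and `t' f = ∏ l, t (f l)`. Write
`b' i f = ∑ d, of (β i f d) * root ^ d`, `x i = ∑ d, of (ξ i d) * root ^ d` (`ar_ex`). Multiply `hα` by
`of (teichmuller p (g i)⁻¹)` and compare components (`ar_uniq`):
`∑ f, map κ (β i f d) * teichmuller (t' f / g i) - p ^ v i * (if d = 0 then 1 else 0) =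
p ^ (v i + 1) * ξ i d`. The left side is the image under the `(v i + 1)`-th power of Frobenius of a Witt
vector over `F`, so `ξ i d = map τ (ξ0 i d)` by `shift'` and `x i` comes from `AdjoinRoot gF`,
`gF = g0.map (map (algebraMap k0 F))`. Apply `exists_sat`, `sep_of`, `asep_base` and `acore` with
`T = (of gF).toMonoidHom.comp (teichmuller p)`, `T0 = (of g0).toMonoidHom.comp (teichmuller p)` and the
index type `Fin M → J`: `η' f = ∏ l, η (f l)`, exponents `∑ l, e (f l)`, shift `M * N0`; the polynomial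
`fp` of these data is the `M`-th power of the polynomial `fp` for `J` (`fp_pow`).
`AdjoinRoot.map_comp_map`, `Polynomial.map_map`, `ar_inj`, `ar_domain`, `ar_char`, `ar_one`,
`Eis.map`.
-/

set_option autoImplicit false

namespace Pool.Agent.Work.MP_dd0d16_nt.T

open WittVector MvPolynomial

variable {p : ℕ} [Fact p.Prime]

theorem shift' {F k : Type} [Field F] [Field k] [CharP k p] [PerfectRing k p] {τ : F →+* k}
    (β : WittVector p F) {s : ℕ} {x : WittVector p k}
    (h : WittVector.map (iterateFrobenius k p s) (WittVector.map τ β) = p ^ s * x) :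
    ∃ x0 : WittVector p F, x = WittVector.map τ x0 := by
  refine ⟨β.shift s, ?_⟩
  ext i
  have h2 := congrArg (fun w : WittVector p k => w.coeff (i + s)) h
  rw [mul_comm, mul_pow_charP_coeff_succ, map_coeff, map_coeff, iterateFrobenius_def] at h2
  rw [map_coeff, shift_coeff, add_comm s i]
  exact (iterateFrobenius_inj k p s h2).symm

theorem fp_pow {R σ J : Type} [CommRing R] [Fintype J] (e : J → σ →₀ ℕ) (c : J → R) (M : ℕ) :
    fp (fun f : Fin M → J => ∑ l, e (f l)) (fun f => ∏ l, c (f l)) = fp e c ^ M := by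
  rw [fp, fp, Fintype.sum_pow]
  exact Finset.sum_congr rfl fun f _ => monomial_sum_prod _ _ _

theorem ThmD2_desc {k0 F k : Type} [Field k0] [CharP k0 p] [PerfectRing k0 p] [Field F] [Field k]
    [CharP k p] [PerfectRing k p] (κ0 : k0 →+* F) (τ : F →+* k) (κ : k0 →+* k)
    (hκ : ∀ z, κ z = τ (κ0 z)) {g0 : Polynomial (WittVector p k0)}
    (hg : g0.Monic) {gF : Polynomial (WittVector p F)} {gk : Polynomial (WittVector p k)}
    (h : gk = g0.map (WittVector.map κ)) (d : gk ∣ g0.map (WittVector.map κ))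
    (d2 : gk ∣ gF.map (WittVector.map τ)) {J : Type} [Fintype J] (b : J → AdjoinRoot g0)
    (n : J → WittVector p k) {s : ℕ}
    (hn : ∀ j, ∃ z, WittVector.map (iterateFrobenius k p s) (WittVector.map τ z) = n j)
    {x : AdjoinRoot gk}
    (hx : ∑ j, AdjoinRoot.map _ g0 gk d (b j) * AdjoinRoot.of gk (n j) = p ^ s * x) :
    ∃ x0, x = AdjoinRoot.map _ gF gk d2 x0 := by
  choose β hβ using fun j => ar_ex hg (Polynomial.map_id).symm (b j)
  obtain ⟨ξ, hξ⟩ := ar_ex hg h x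
  choose z hz using hn
  have h1 := ar_uniq hg h
    (fun c => ∑ j, WittVector.map κ (β j c) * n j - p ^ s * ξ c) (by
      simp only [map_sub, map_sum, map_mul, map_pow, map_natCast, sub_mul, Finset.sum_sub_distrib,
        Finset.sum_mul, mul_assoc]
      rw [← Finset.mul_sum, ← hξ, ← hx, Finset.sum_comm, sub_eq_zero]
      refine Finset.sum_congr rfl fun j _ => ?_
      rw [hβ j, map_sum, Finset.sum_mul]
      refine Finset.sum_congr rfl fun c _ => ?_
      rw [map_mul, map_pow, AdjoinRoot.map_of, AdjoinRoot.map_root]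
      ring)
  have h2 : ∀ c, ∃ x0, ξ c = WittVector.map τ x0 := fun c => by
    refine shift' (s := s) (∑ j, WittVector.map κ0
      (WittVector.map ((iterateFrobeniusEquiv k0 p s).symm : k0 →+* k0) (β j c)) * z j) ?_
    rw [← sub_eq_zero.1 (congrFun h1 c), map_sum, map_sum]
    refine Finset.sum_congr rfl fun j _ => ?_
    rw [map_mul, map_mul, hz]
    congr 1
    ext i
    simp only [WittVector.map_coeff, iterateFrobenius_def, ← map_pow, hκ]
    congr 2
    exact (iterateFrobeniusEquiv k0 p s).symm_apply_apply _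
  choose ξ0 hξ0 using h2
  refine ⟨∑ c, AdjoinRoot.of gF (ξ0 c) * AdjoinRoot.root gF ^ (c : ℕ), ?_⟩
  rw [hξ, map_sum]
  refine Finset.sum_congr rfl fun c _ => ?_
  rw [map_mul, map_pow, AdjoinRoot.map_of, AdjoinRoot.map_root, hξ0]

theorem thmD2 {k0 k : Type} [Field k0] [IsAlgClosed k0] [CharP k0 p] [Field k] [CharP k p]
    [PerfectRing k p] (κ : k0 →+* k) {g0 : Polynomial (WittVector p k0)} (hg0 : Eis p g0)
    {J I : Type} [Fintype J] [Fintype I] (t : J → k) (ht : ∀ j, t j ≠ 0)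
    (b : I → J → AdjoinRoot g0) (v : I → ℕ) (g : I → k) (M : ℕ)
    (x l : I → AdjoinRoot (g0.map (WittVector.map κ))) (hg : ∀ i, g i ≠ 0)
    (hα : ∀ i, (∑ j, AdjoinRoot.map (WittVector.map κ) g0 _ dvd_rfl (b i j) *
        AdjoinRoot.of _ (teichmuller p (t j))) ^ M =
      (p : AdjoinRoot (g0.map (WittVector.map κ))) ^ v i * AdjoinRoot.of _ (teichmuller p (g i)) *
        (1 + (p : AdjoinRoot (g0.map (WittVector.map κ))) * x i))
    (hl : ∀ i, WLog p (x i) (l i)) :
    ∃ (m : ℕ) (a : Fin m → k) (N0 : ℕ) (η : J → k0) (e : J → Fin m →₀ ℕ), (∀ i, a i ≠ 0) ∧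
      (∀ j, t j * ∏ i, a i ^ N0 = κ (η j) * ∏ i, a i ^ e j i) ∧
      ∀ (I' : Type) [Fintype I'] (s : I' → I),
      (∀ P : MvPolynomial (Fin m ⊕ I') (AdjoinRoot g0),
        eval₂ (AdjoinRoot.map (WittVector.map κ) g0 _ dvd_rfl)
        (Sum.elim (fun i => AdjoinRoot.of _ (teichmuller p (a i))) fun i => l (s i)) P = 0 →
        P = 0) ∨
      ∃ (r r' : I' → ℕ) (w w' : Fin m →₀ ℕ), r ≠ r' ∧
        Prop2 (monomial w 1 * ∏ i,
            (fp e (fun j => b (s i) j * AdjoinRoot.of g0 (teichmuller p (η j))) ^ M) ^ r i)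
          (monomial w' 1 * ∏ i,
            (fp e (fun j => b (s i) j * AdjoinRoot.of g0 (teichmuller p (η j))) ^ M) ^ r' i) := by
  classical
  let _ : Algebra k0 k := κ.toAlgebra
  let L := ∑ i, v i + 1
  have hL : ∀ i, v i + 1 ≤ L := fun i => Nat.succ_le_succ
    (Finset.single_le_sum (f := v) (fun _ _ => Nat.zero_le _) (Finset.mem_univ i))
  let u : J ⊕ I → k := fun j => (iterateFrobeniusEquiv k p L).symm (Sum.elim t g j)
  have hu : ∀ j, u j ^ p ^ L = Sum.elim t g j := fun j =>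
    (iterateFrobeniusEquiv k p L).apply_symm_apply _
  let F := IntermediateField.adjoin k0 (Set.range u)
  have : Algebra.EssFiniteType k0 F := IntermediateField.essFiniteType_iff.2
    (IntermediateField.fg_adjoin_of_finite (Set.finite_range u))
  let τ : F →+* k := algebraMap F k
  have : CharP F p := (RingHom.charP_iff_charP τ p).2 inferInstance
  let u' : J ⊕ I → F := fun j => ⟨u j, IntermediateField.subset_adjoin _ _ ⟨j, rfl⟩⟩
  have hτ : ∀ j, τ (u' j) ^ p ^ L = Sum.elim t g j := hu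
  obtain ⟨G, hG⟩ : ∃ G : J ⊕ I → F, ∀ j, τ (G j) = Sum.elim t g j :=
    ⟨fun j => u' j ^ p ^ L, fun j => by rw [map_pow, hτ]⟩
  have hG0 : ∀ j, G j ≠ 0 := fun j h => by
    have h1 := hG j
    rw [h, map_zero] at h1
    rcases j with j | i
    exacts [ht j h1.symm, hg i h1.symm]
  let gF := g0.map (WittVector.map (algebraMap k0 F))
  have h2 : g0.map (WittVector.map κ) = gF.map (WittVector.map τ) := by
    rw [Polynomial.map_map]
    rfl
  let τA := AdjoinRoot.map (WittVector.map τ) gF _ h2.dvd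
  let κA := AdjoinRoot.map (WittVector.map (algebraMap k0 F)) g0 gF dvd_rfl
  have hc : τA.comp κA = AdjoinRoot.map (WittVector.map κ) g0 _ dvd_rfl :=
    AdjoinRoot.map_comp_map _ _ _ _ _ _ _
  have hc' : ∀ z, τA (κA z) = AdjoinRoot.map (WittVector.map κ) g0 _ dvd_rfl z :=
    fun z => RingHom.congr_fun hc z
  have hT : ∀ y : F, τA (AdjoinRoot.of gF (teichmuller p y)) =
      AdjoinRoot.of _ (teichmuller p (τ y)) := fun y => by
    rw [AdjoinRoot.map_of, map_teichmuller]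
  have hα' : ∀ i, ∑ f : Fin M → J, AdjoinRoot.map (WittVector.map κ) g0 _ dvd_rfl
      (∏ c, b i (f c)) * AdjoinRoot.of _ (teichmuller p (∏ c, t (f c))) = _ := fun i => by
    refine Eq.trans ?_ (hα i)
    rw [Fintype.sum_pow]
    refine Finset.sum_congr rfl fun f _ => ?_
    rw [map_prod, map_prod, map_prod, Finset.prod_mul_distrib]
  have hsh : ∀ i, ∃ x0, x i = τA x0 := fun i => by
    refine ThmD2_desc (algebraMap k0 F) τ κ (fun _ => rfl) hg0.monic rfl dvd_rfl h2.dvd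
      (J := Option (Fin M → J))
      (fun o => o.elim (-p ^ v i) fun f => ∏ c, b i (f c))
      (fun o => o.elim 1 fun f => teichmuller p ((∏ c, t (f c)) * (g i)⁻¹)) (s := v i + 1) ?_ ?_
    · rintro (_ | f)
      · exact ⟨1, by rw [map_one, map_one, Option.elim_none]⟩
      · refine ⟨teichmuller p (((∏ c, u' (.inl (f c))) * (u' (.inr i))⁻¹) ^ p ^ (L - (v i + 1))), ?_⟩
        rw [map_teichmuller, map_teichmuller, iterateFrobenius_def, ← map_pow, ← pow_mul, ← pow_add,
          Nat.sub_add_cancel (hL i), map_pow, map_mul, map_prod, map_inv₀, mul_pow, inv_pow,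
          ← Finset.prod_pow, hτ, Finset.prod_congr rfl fun c _ => hτ (.inl (f c))]
        rfl
    · have h3 : AdjoinRoot.of (g0.map (WittVector.map κ)) (teichmuller p (g i)) *
          AdjoinRoot.of _ (teichmuller p (g i)⁻¹) = 1 := by
        rw [← map_mul, ← map_mul, mul_inv_cancel₀ (hg i), map_one, map_one]
      rw [Fintype.sum_option]
      simp only [Option.elim_none, Option.elim_some, map_mul, ← mul_assoc, ← Finset.sum_mul,
        map_neg, map_pow, map_natCast, map_one]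
      rw [hα' i]
      linear_combination (p : AdjoinRoot (g0.map (WittVector.map κ))) ^ v i * (1 + p * x i) * h3
  choose x0 hx0 using hsh
  obtain ⟨m, a, η, e, ha, he, hsat⟩ := exists_sat (k0 := k0) G hG0
  have hs : Sep p τ (algebraMap k0 F) a :=
    sep_of τ a ha fun c h => hsat p c h (Fact.out : p.Prime).ne_zero
  let N0 := ∑ j, ∑ i, (e (.inl j) i).natAbs
  have hN : ∀ j i, (e (.inl j) i).natAbs ≤ N0 := fun j i =>
    (Finset.single_le_sum (f := fun i => (e (.inl j) i).natAbs) (fun _ _ => Nat.zero_le _)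
      (Finset.mem_univ i)).trans (Finset.single_le_sum
        (f := fun j => ∑ i, (e (.inl j) i).natAbs) (fun _ _ => Nat.zero_le _) (Finset.mem_univ j))
  let e' : J → Fin m →₀ ℕ := fun j =>
    Finsupp.equivFunOnFinite.symm fun i => (e (.inl j) i + N0).toNat
  have he' : ∀ j i, (e' j i : ℤ) = e (.inl j) i + N0 := fun j i => by
    have := hN j i
    simp only [e', Finsupp.equivFunOnFinite_symm_apply_apply]
    omega
  refine ⟨m, fun i => τ (a i), N0, fun j => η (.inl j), e', fun i => (map_ne_zero τ).2 (ha i),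
    fun j => ?_, fun I' _ s => ?_⟩
  · have h1 := congrArg τ (he (.inl j))
    rw [hG, Sum.elim_inl, map_mul, map_prod] at h1
    rw [h1, mul_assoc, ← Finset.prod_mul_distrib]
    congr 1
    refine Finset.prod_congr rfl fun i _ => ?_
    rw [map_zpow₀, ← zpow_natCast, ← zpow_natCast, he', zpow_add₀ ((map_ne_zero τ).2 (ha i))]
  · have hE := hg0.map (WittVector.map κ)
    have := ar_domain hE
    have := ar_char hE
    have key := acore (τ := τA) (κ := κA)
      (T := (AdjoinRoot.of gF).toMonoidHom.comp (teichmuller p))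
      (T0 := (AdjoinRoot.of g0).toMonoidHom.comp (teichmuller p)) (κ0 := algebraMap k0 F)
      (Fact.out : p.Prime).ne_zero (ar_one hE)
      (hc ▸ ar_inj hg0.monic rfl (WittVector.map_injective κ κ.injective) _)
      (fun y => by
        change AdjoinRoot.of gF _ = κA (AdjoinRoot.of g0 _)
        rw [AdjoinRoot.map_of, map_teichmuller]) ha
      (asep_base hg0.monic rfl h2 _ _ hs) (J := Fin M → J) (fun f => ∏ c, G (.inl (f c)))
      (fun f => ∏ c, η (.inl (f c))) (fun f i => ∑ c, e (.inl (f c)) i)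
      (fun f => by
        rw [Finset.prod_congr rfl fun c _ => he (.inl (f c)), Finset.prod_mul_distrib, map_prod,
          Finset.prod_comm]
        congr 1
        exact Finset.prod_congr rfl fun i _ => (prod_zpow_sum (ha i) _).symm)
      (fun i => G (.inr i)) (fun i => hG0 _) (fun i => η (.inr i)) (fun i => e (.inr i))
      (fun i => he _) (fun i f => ∏ c, b i (f c)) v x0 l
      (fun i => by
        change ∑ f : Fin M → J, τA (κA _) * τA (AdjoinRoot.of gF (teichmuller p _)) =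
          _ * τA (AdjoinRoot.of gF (teichmuller p _)) * _
        simp only [hc', hT, ← hx0, map_prod τ, hG, Sum.elim_inl, Sum.elim_inr]
        exact hα' i)
      (fun i => hx0 i ▸ hl i) (M * N0) (fun f => ∑ c, e' (f c))
      (fun f i => by
        simp only [Finsupp.finset_sum_apply, Nat.cast_sum, he', Finset.sum_add_distrib,
          Finset.sum_const, Finset.card_univ, Fintype.card_fin, nsmul_eq_mul, Nat.cast_mul]) s
    rcases key with h | h
    · refine Or.inl fun P hP => h P ?_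
      rw [hc, ← hP]
      congr 2
      exact funext fun i => hT (a i)
    · right
      simpa only [map_prod, MonoidHom.comp_apply, RingHom.toMonoidHom_eq_coe, MonoidHom.coe_coe,
        ← Finset.prod_mul_distrib, fun i => fp_pow e'
          (fun j => b (s i) j * AdjoinRoot.of g0 (teichmuller p (η (.inl j)))) M] using h

end Pool.Agent.Work.MP_dd0d16_nt.T
end

-- merged part: Pool.Agent.Work.MP_dd0d16_nt.R.Top2
section
-- merged part: Pool.Agent.Work.MP_dd0d16_nt.R.Lim2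
section
/-!
The limit for ramified integers.

PLAN. Let `Λ0 = Λ.comp (piMap ι j)` with `lim_br hb h`, `π = φ (root g)`,
`gι = g.map (Pi.constRingHom ι O)`, and `ψ : AdjoinRoot gι →+* (ι → φ.range)` the `AdjoinRoot.lift` of
`z ↦ fun n => z n` and the constant family `π`. By `ar_ex`, `ar_uniq` (for `g` with `RingHom.id` and
for `gι`) every family is `∑ d, c d * π ^ d` with unique `c d : ι → O`, so `ψ` is bijective; put
`Λ' = (AdjoinRoot.map Λ0 gι _ _).comp ψ⁻¹` (`Lam.const`, `Polynomial.map_map`), so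
`Λ' (∑ d, c d * π ^ d) = ∑ d, of (Λ0 (c d)) * root ^ d`.
`zero`: `Λ' z = 0` iff all `Λ0 (c d) = 0` iff all `c d` are infinitesimal. If `‖z n‖ ≤ p ^ (-c)` then
`z n / p ^ c ∈ φ.range`, and uniqueness gives `p ^ c ∣ c d n` in `O` (`vG_le_pow`).
`const`: take a basis `b l` of `K` over `ℚ_[p]`, `p ^ r * b l = ∑ d, c l d * π ^ d`, and let `K'` be
generated by the `c l d`; it is finite and contained in `Unr p`, and by uniqueness (after clearing
denominators, or as linear independence of the `π ^ d` over `Unr p` with `Br.unr`) the components of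
`z ∈ K ∩ φ.range` lie in `K'`.
`wlog_of_mem`: copy `BLog_unit` (T/BLog).
-/

set_option autoImplicit false

namespace Pool.Agent.Work.MP_dd0d16_nt.T

open Filter

variable {p : ℕ} [Fact p.Prime] {ι : Type} {U : Ultrafilter ι} {O : Subring (PadicAlgCl p)}
  {j : O →+* WittVector p (K0 p)} {Λ : (ι → WittVector p (K0 p)) →+* WittVector p (KU p U)}

section Aux

variable {N : ℕ} {π : PadicAlgCl p} {O' : Subring (PadicAlgCl p)}
  {W : IntermediateField ℚ_[p] (PadicAlgCl p)}

theorem Lim2_small (z : PadicAlgCl p) : ∃ r : ℕ, ‖(p : PadicAlgCl p) ^ r * z‖ ≤ 1 := by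
  have hp : (1 : ℝ) < p := by exact_mod_cast (Fact.out : p.Prime).one_lt
  obtain ⟨r, hr⟩ := pow_unbounded_of_one_lt ‖z‖ hp
  refine ⟨r, ?_⟩
  rw [norm_mul, norm_pow, norm_p_eq, inv_pow, inv_mul_le_iff₀ (by positivity), mul_one]
  exact hr.le

theorem Lim2_norm (hb : Br O j) (hW : ∀ z, z ∈ O' ↔ z ∈ W ∧ ‖z‖ ≤ 1) (hπ : π ∈ O')
    (hE : ∀ z ∈ O', ∃ c : Fin N → O, z = ∑ d, (c d : PadicAlgCl p) * π ^ (d : ℕ))
    (hU : ∀ c : Fin N → O, ∑ d, (c d : PadicAlgCl p) * π ^ (d : ℕ) = 0 → c = 0)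
    {z : PadicAlgCl p} (hz : z ∈ O') {c : Fin N → O}
    (e : z = ∑ d, (c d : PadicAlgCl p) * π ^ (d : ℕ)) (k : ℕ) :
    ‖z‖ ≤ (p : ℝ)⁻¹ ^ k ↔ ∀ d, ‖(c d : PadicAlgCl p)‖ ≤ (p : ℝ)⁻¹ ^ k := by
  have hp0 : (0 : ℝ) < p := by exact_mod_cast (Fact.out : p.Prime).pos
  have hp : (p : PadicAlgCl p) ≠ 0 := Nat.cast_ne_zero.2 (Fact.out : p.Prime).ne_zero
  constructor
  · intro h d
    obtain ⟨c', e'⟩ := hE (z / p ^ k) ((hW _).2
      ⟨div_mem ((hW z).1 hz).1 (pow_mem (natCast_mem _ p) k), by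
        rw [norm_div, norm_pow, norm_p_eq]
        exact div_le_one_of_le₀ h (by positivity)⟩)
    have h1 := congrFun (hU (fun d => c d - p ^ k * c' d) (by
      push_cast
      simp only [sub_mul, mul_assoc, Finset.sum_sub_distrib, ← Finset.mul_sum]
      rw [← e, ← e', mul_div_cancel₀ _ (pow_ne_zero k hp), sub_self])) d
    rw [sub_eq_zero.1 h1]
    push_cast
    rw [norm_mul, norm_pow, norm_p_eq]
    exact mul_le_of_le_one_right (by positivity) (hb.le _ (c' d).2)
  · intro h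
    rw [e]
    refine IsUltrametricDist.norm_sum_le_of_forall_le_of_nonneg (by positivity) fun d _ => ?_
    rw [norm_mul, norm_pow]
    exact (mul_le_of_le_one_right (norm_nonneg _)
      (pow_le_one₀ (norm_nonneg _) ((hW π).1 hπ).2)).trans (h d)

theorem Lim2_ind (hb : Br O j)
    (hU : ∀ c : Fin N → O, ∑ d, (c d : PadicAlgCl p) * π ^ (d : ℕ) = 0 → c = 0)
    (e : Fin N → PadicAlgCl p) (he : ∀ d, e d ∈ Unr p) (h0 : ∑ d, e d * π ^ (d : ℕ) = 0)
    (d : Fin N) : e d = 0 := by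
  have hp : (p : PadicAlgCl p) ≠ 0 := Nat.cast_ne_zero.2 (Fact.out : p.Prime).ne_zero
  choose r hr using fun d => hb.unr _ (he d)
  have h1 : ∀ d, (p : PadicAlgCl p) ^ (∑ d, r d) * e d ∈ O := fun d => by
    obtain ⟨t, ht⟩ := Nat.exists_eq_add_of_le'
      (Finset.single_le_sum (f := r) (fun _ _ => Nat.zero_le _) (Finset.mem_univ d))
    rw [ht, pow_add, mul_assoc]
    exact mul_mem (pow_mem (natCast_mem _ p) t) (hr d)
  have h2 := congrFun (hU (fun d => ⟨_, h1 d⟩) (by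
    simp only [mul_assoc, ← Finset.mul_sum, h0, mul_zero])) d
  exact (mul_eq_zero.1 (congrArg Subtype.val h2)).resolve_left (pow_ne_zero _ hp)

theorem Lim2_fin (hb : Br O j) (hW : ∀ z, z ∈ O' ↔ z ∈ W ∧ ‖z‖ ≤ 1)
    (hE : ∀ z ∈ O', ∃ c : Fin N → O, z = ∑ d, (c d : PadicAlgCl p) * π ^ (d : ℕ))
    (hU : ∀ c : Fin N → O, ∑ d, (c d : PadicAlgCl p) * π ^ (d : ℕ) = 0 → c = 0)
    (K : IntermediateField ℚ_[p] (PadicAlgCl p)) [FiniteDimensional ℚ_[p] K] (hK : K ≤ W) :
    ∃ K' : IntermediateField ℚ_[p] (PadicAlgCl p), FiniteDimensional ℚ_[p] K' ∧ K' ≤ Unr p ∧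
      ∀ c : Fin N → O, ∑ d, (c d : PadicAlgCl p) * π ^ (d : ℕ) ∈ K →
        ∀ d, (c d : PadicAlgCl p) ∈ K' := by
  have hp : (p : PadicAlgCl p) ≠ 0 := Nat.cast_ne_zero.2 (Fact.out : p.Prime).ne_zero
  have h1 : ∀ w ∈ W, ∃ e : Fin N → PadicAlgCl p, (∀ d, e d ∈ Unr p) ∧
      w = ∑ d, e d * π ^ (d : ℕ) := fun w hw => by
    obtain ⟨r, hr⟩ := Lim2_small w
    obtain ⟨c, hc⟩ := hE _ ((hW _).2 ⟨mul_mem (pow_mem (natCast_mem _ p) r) hw, hr⟩)
    refine ⟨fun d => ((p : PadicAlgCl p) ^ r)⁻¹ * c d, fun d =>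
      mul_mem (inv_mem (pow_mem (natCast_mem _ p) r)) (hb.sub _ (c d).2), ?_⟩
    simp only [mul_assoc, ← Finset.mul_sum]
    rw [← hc, inv_mul_cancel_left₀ (pow_ne_zero r hp)]
  let b := Module.finBasis ℚ_[p] K
  choose e he hbe using fun l => h1 _ (hK (b l).2)
  have h2 : IntermediateField.adjoin ℚ_[p] (Set.range (Function.uncurry e)) ≤ Unr p :=
    IntermediateField.adjoin_le_iff.2 (by rintro _ ⟨⟨l, d⟩, rfl⟩; exact he l d)
  refine ⟨_, IntermediateField.finiteDimensional_adjoin fun x _ =>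
    Algebra.IsIntegral.isIntegral x, h2, fun c hc d => ?_⟩
  have h3 := congrArg (fun x : K => (x : PadicAlgCl p)) (b.sum_repr ⟨_, hc⟩)
  simp only [IntermediateField.coe_sum, IntermediateField.coe_smul] at h3
  have h4 : ∀ d, ∑ l, b.repr ⟨_, hc⟩ l • e l d ∈
      IntermediateField.adjoin ℚ_[p] (Set.range (Function.uncurry e)) := fun d =>
    sum_mem fun l _ => IntermediateField.smul_mem _
      (IntermediateField.subset_adjoin _ _ (Set.mem_range_self (l, d)))
  have h5 := Lim2_ind hb hU (fun d => c d - ∑ l, b.repr ⟨_, hc⟩ l • e l d)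
    (fun d => sub_mem (hb.sub _ (c d).2) (h2 (h4 d))) (by
      simp only [sub_mul, Finset.sum_sub_distrib, Finset.sum_mul, smul_mul_assoc]
      rw [Finset.sum_comm, sub_eq_zero]
      simp only [← Finset.smul_sum, ← hbe]
      exact h3.symm) d
  rw [sub_eq_zero.1 h5]
  exact h4 d

end Aux

theorem lim_ram (hb : Br O j) (h : Lam U Λ) {g : Polynomial O} (hg : g.Monic)
    (φ : AdjoinRoot g →+* PadicAlgCl p) (hφ : Function.Injective φ)
    (hc : ∀ c : O, φ (AdjoinRoot.of g c) = c) {W : IntermediateField ℚ_[p] (PadicAlgCl p)}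
    (hW : ∀ z, z ∈ φ.range ↔ z ∈ W ∧ ‖z‖ ≤ 1) :
    ∃ Λ' : (ι → φ.range) →+* AdjoinRoot ((g.map j).map (WittVector.map (kap U))),
      Lim U φ.range W (AdjoinRoot.map (WittVector.map (kap U)) (g.map j) _ dvd_rfl) Λ' ∧
      ∀ (z : ι → O) (z' : ι → φ.range), (∀ n, (z' n : PadicAlgCl p) = z n) →
        Λ' z' = AdjoinRoot.of _ (Λ fun n => j (z n)) := by
  have L0 := lim_br hb h
  set Λ0 := Λ.comp (piMap ι j) with hΛ0
  have hφs : ∀ c : Fin g.natDegree → O,
      φ (∑ d, AdjoinRoot.of g (c d) * AdjoinRoot.root g ^ (d : ℕ)) =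
        ∑ d, (c d : PadicAlgCl p) * φ (AdjoinRoot.root g) ^ (d : ℕ) := fun c => by
    simp only [map_sum, map_mul, map_pow, hc]
  have hE : ∀ z ∈ φ.range, ∃ c : Fin g.natDegree → O,
      z = ∑ d, (c d : PadicAlgCl p) * φ (AdjoinRoot.root g) ^ (d : ℕ) := by
    rintro _ ⟨x, rfl⟩
    obtain ⟨c, rfl⟩ := ar_ex hg g.map_id.symm x
    exact ⟨c, hφs c⟩
  have hU : ∀ c : Fin g.natDegree → O,
      ∑ d, (c d : PadicAlgCl p) * φ (AdjoinRoot.root g) ^ (d : ℕ) = 0 → c = 0 := fun c h0 =>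
    ar_uniq hg g.map_id.symm c (hφ ((hφs c).trans (h0.trans (map_zero φ).symm)))
  have hg2 : (g.map j).map (WittVector.map (kap U)) = g.map ((WittVector.map (kap U)).comp j) :=
    Polynomial.map_map _ _ _
  let gι := g.map (Pi.constRingHom ι O)
  let ψ : AdjoinRoot gι →+* (ι → φ.range) :=
    AdjoinRoot.lift (piMap ι (φ.rangeRestrict.comp (AdjoinRoot.of g)))
      (fun _ => φ.rangeRestrict (AdjoinRoot.root g)) (by
        have h1 := Polynomial.hom_eval₂ g (AdjoinRoot.of g)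
          ((Pi.constRingHom ι φ.range).comp φ.rangeRestrict) (AdjoinRoot.root g)
        rw [AdjoinRoot.eval₂_root, map_zero] at h1
        rw [Polynomial.eval₂_map]
        exact h1.symm)
  have hψo : ∀ z n, (ψ (AdjoinRoot.of gι z) n : PadicAlgCl p) = z n := fun z n => by
    rw [AdjoinRoot.lift_of]
    exact hc _
  have hψ : ∀ (c : Fin g.natDegree → ι → O) (n : ι),
      (ψ (∑ d, AdjoinRoot.of gι (c d) * AdjoinRoot.root gι ^ (d : ℕ)) n : PadicAlgCl p) =
        ∑ d, (c d n : PadicAlgCl p) * φ (AdjoinRoot.root g) ^ (d : ℕ) := fun c n => by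
    simp only [map_sum, map_mul, map_pow, Finset.sum_apply, Pi.mul_apply, Pi.pow_apply]
    push_cast
    refine Finset.sum_congr rfl fun d _ => ?_
    rw [hψo, AdjoinRoot.lift_root]
    rfl
  have hs : ∀ z : ι → φ.range, ∃ c : Fin g.natDegree → ι → O,
      (∀ n, (z n : PadicAlgCl p) = ∑ d, (c d n : PadicAlgCl p) * φ (AdjoinRoot.root g) ^ (d : ℕ)) ∧
      ψ (∑ d, AdjoinRoot.of gι (c d) * AdjoinRoot.root gι ^ (d : ℕ)) = z := fun z => by
    choose c e using fun n => hE _ (z n).2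
    exact ⟨fun d n => c n d, e, funext fun n => Subtype.ext ((hψ _ n).trans (e n).symm)⟩
  have hbij : Function.Bijective ψ := by
    refine ⟨(injective_iff_map_eq_zero ψ).2 fun x hx => ?_, fun z => ⟨_, (hs z).choose_spec.2⟩⟩
    obtain ⟨c, rfl⟩ := ar_ex hg rfl x
    have h1 : ∀ d, c d = 0 := fun d => funext fun n =>
      congrFun (hU (fun d => c d n) ((hψ c n).symm.trans (by rw [hx]; rfl))) d
    exact Finset.sum_eq_zero fun d _ => by rw [h1, map_zero, zero_mul]
  have hd : (g.map j).map (WittVector.map (kap U)) ∣ gι.map Λ0 := by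
    rw [hg2, Polynomial.map_map]
    exact dvd_of_eq (congrArg g.map (RingHom.ext fun c => (h.const (j c)).symm))
  obtain ⟨Λ', hΛ'⟩ : ∃ Λ' : (ι → φ.range) →+* AdjoinRoot ((g.map j).map (WittVector.map (kap U))),
      ∀ x, Λ' (ψ x) = AdjoinRoot.map Λ0 gι _ hd x :=
    ⟨(AdjoinRoot.map Λ0 gι _ hd).comp (RingEquiv.ofBijective ψ hbij).symm.toRingHom, fun x =>
      congrArg (AdjoinRoot.map Λ0 gι _ hd) ((RingEquiv.ofBijective ψ hbij).symm_apply_apply x)⟩
  have hk : ∀ z : ι → φ.range, ∃ c : Fin g.natDegree → ι → O,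
      (∀ n, (z n : PadicAlgCl p) = ∑ d, (c d n : PadicAlgCl p) * φ (AdjoinRoot.root g) ^ (d : ℕ)) ∧
      Λ' z = ∑ d, AdjoinRoot.of _ (Λ0 (c d)) * AdjoinRoot.root _ ^ (d : ℕ) := fun z => by
    obtain ⟨c, e, rfl⟩ := hs z
    refine ⟨c, e, ?_⟩
    simp only [hΛ', map_sum (AdjoinRoot.map Λ0 gι _ hd), map_mul, map_pow, AdjoinRoot.map_of,
      AdjoinRoot.map_root]
  refine ⟨Λ', ⟨hW, fun z => ?_, fun K _ hK z => ?_⟩, fun z z' e => ?_⟩
  · obtain ⟨c, e, e'⟩ := hk z
    have h1 : Λ' z = 0 ↔ ∀ d, Λ0 (c d) = 0 :=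
      ⟨fun h0 => congrFun (ar_uniq hg hg2 (fun d => Λ0 (c d)) (e'.symm.trans h0)),
        fun h0 => by simp [e', h0]⟩
    rw [h1]
    simp only [L0.zero, Inf, gO_apply, vG_le_pow,
      fun n => Lim2_norm hb hW ⟨_, rfl⟩ hE hU (z n).2 (e n), eventually_all]
    exact forall_comm
  · obtain ⟨c, e, e'⟩ := hk z
    obtain ⟨K', _, h1, h2⟩ := Lim2_fin hb hW hE hU K hK
    choose a ha using fun d => L0.const K' h1
      ⟨c d, mem_RK.2 fun n => h2 (fun d => c d n) (e n ▸ mem_RK.1 z.2 n) d⟩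
    refine ⟨∑ d, AdjoinRoot.of _ (a d) * AdjoinRoot.root _ ^ (d : ℕ), ?_⟩
    simp only [e', map_sum, map_mul, map_pow, AdjoinRoot.map_of, AdjoinRoot.map_root, ha]
  · have h1 : z' = ψ (AdjoinRoot.of gι z) :=
      funext fun n => Subtype.ext ((e n).trans (hψo z n).symm)
    rw [h1, hΛ', AdjoinRoot.map_of]
    rfl

theorem wlog_of_mem {L : PadicAlgCl p → PadicAlgCl p} (hL : IsLog L) {O' : Subring (PadicAlgCl p)}
    {W : IntermediateField ℚ_[p] (PadicAlgCl p)} (hW : ∀ z, z ∈ O' ↔ z ∈ W ∧ ‖z‖ ≤ 1) (y : O') :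
    1 + (p : PadicAlgCl p) * y ≠ 0 ∧
      ∃ h' : L (1 + p * y) ∈ O', WLog p y ⟨L (1 + p * y), h'⟩ := by
  have hp : (2 : ℝ) ≤ p := by exact_mod_cast (Fact.out : p.Prime).two_le
  have h0 : (0 : ℝ) < (p : ℝ)⁻¹ := by positivity
  have h1 : (p : ℝ)⁻¹ < 1 := inv_lt_one_of_one_lt₀ (by linarith)
  have hp0 : (p : PadicAlgCl p) ≠ 0 := Nat.cast_ne_zero.2 (Fact.out : p.Prime).ne_zero
  have h2 : ∀ (n : ℕ) (c : O'), ‖(p : PadicAlgCl p) ^ n * c‖ ≤ (p : ℝ)⁻¹ ^ n := fun n c => by
    rw [norm_mul, norm_pow, norm_p_eq]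
    exact mul_le_of_le_one_right (pow_nonneg h0.le _) ((hW c).1 c.2).2
  have h3 : ‖(p : PadicAlgCl p) * y‖ ≤ (p : ℝ)⁻¹ := by simpa using h2 1 y
  have h4 : 1 + (p : PadicAlgCl p) * y ≠ 0 := fun k => by
    rw [eq_neg_of_add_eq_zero_right k, norm_neg, norm_one] at h3
    linarith
  have h5 := BLog_mem hL W ((hW _).1 (O'.mul_mem (natCast_mem O' p) y.2)).1 (h3.trans_lt h1)
  have h6 : L (1 + p * y) ∈ O' := by
    refine (hW _).2 ⟨h5, ?_⟩
    have h7 := BLog_est hL (M := 0) (z := p * y) (by simpa using h3)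
    have h8 := IsUltrametricDist.norm_add_le_max (L (1 + p * y) - p * y) (p * y)
    rw [sub_add_cancel] at h8
    exact h8.trans (max_le (by simpa using h7) (h3.trans h1.le))
  refine ⟨h4, h6, fun M => ?_⟩
  obtain ⟨c, hc⟩ := dvd_sub_pow_of_dvd_sub (p := p) (a := 1 + (p : O') * y) (b := 1)
    ⟨y, add_sub_cancel_left _ _⟩ M
  have h7 : (1 + (p : PadicAlgCl p) * y) ^ p ^ M = 1 + (p : PadicAlgCl p) ^ (M + 1) * c := by
    have h8 := congrArg O'.subtype hc
    simp only [map_sub, map_pow, map_add, map_mul, map_one, map_natCast, one_pow,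
      Subring.subtype_apply] at h8
    rw [← h8, add_sub_cancel]
  have h8 := BLog_est hL (h2 (M + 1) c)
  rw [← h7, log_pow hL h4, Nat.cast_pow] at h8
  have h9 : ((p : PadicAlgCl p) ^ (M + 1) * c - p ^ M * L (1 + p * y)) / p ^ (2 * M) ∈ O' := by
    refine (hW _).2 ⟨div_mem (sub_mem (mul_mem (pow_mem (natCast_mem _ p) _) ((hW c).1 c.2).1)
      (mul_mem (pow_mem (natCast_mem _ p) _) h5)) (pow_mem (natCast_mem _ p) _), ?_⟩
    rw [norm_div, norm_pow, norm_p_eq, div_le_one (pow_pos h0 _), norm_sub_rev]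
    exact h8
  refine ⟨⟨_, h9⟩, Subtype.ext ?_⟩
  push_cast
  rw [h7, mul_div_cancel₀ _ (pow_ne_zero _ hp0), add_sub_cancel_left]

end Pool.Agent.Work.MP_dd0d16_nt.T
end

-- merged part: Pool.Agent.Work.MP_dd0d16_nt.S.Top
section
/-!
The dichotomy at the scale of `p`.

PLAN. Follow the first half of `seq_main` (T/Seq) with `M = 1`. `O, j, hb` from `exists_br`, `Λ` from
`exists_lam`, `hl = lim_br hb h` with `Λ' = Λ.comp (piMap ι j)`. View `ζ n j`, `b n i j` in `O`
(`Br.root`, `Lim.mem`), `Lim.const` gives `β i j` with `map (kap U) (β i j) = Λ' (b · i j)`. With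
`a i = fun n => ∑ j, b n i j * z n j : ι → O` we have `gO U O (a i) = α i`, so `Λ' (a i) ≠ 0`
(`Lim.zero`); `Lam.val`, `Br.log`, `Lam.wlog`, `thmD` (with `b = β`) and `special` as in `seq_main`.
`gO U O (l i) = LG U L (α i)`. First case of `thmD`: `Lim.si` with `y = Sum.elim x l`. Second case:
`Lim.small` with `F = monomial w 1 * ∏ i, f (ε i) ^ r i`, `G = monomial w' 1 * ∏ i, f (ε i) ^ r' i`,
`f i = fp e fun j => (b · i j * η j : RK ι O F1)`; `map (Λ'.comp subtype) (f i)` is the image under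
`map (kap U)` of the polynomial of `thmD` (`map_fp`, `Lam.const`; `Prop2` is preserved by `map`);
the value of `f i` is eventually `a i * u`, `u = ∏ x ^ N0` (`ev_fp`, `Lim.congr`), and
`Λ' (x d) = teichmuller ≠ 0` (`teich_ne`) in a domain. Exponents: `r i - r' i` and
`ω d = w d - w' d + N0 * ∑ i, (r i - r' i)`.
-/

set_option autoImplicit false

namespace Pool.Agent.Work.MP_dd0d16_nt.T

open Filter MvPolynomial

variable {p : ℕ} [Fact p.Prime] {ι : Type} {L : PadicAlgCl p → PadicAlgCl p}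

theorem Top_alg {K σ I : Type} [Field K] [Fintype σ] [Fintype I] (ξ : σ → K) (hξ : ∀ d, ξ d ≠ 0)
    (α : I → K) (hα : ∀ i, α i ≠ 0) (N : ℕ) (r r' : I → ℕ) (w w' : σ → ℕ) :
    ((∏ d, ξ d ^ ((w d : ℤ) - w' d + N * (((∑ i, r i : ℕ) : ℤ) - (∑ i, r' i : ℕ)))) *
        ∏ i, (α i ^ 1) ^ ((r i : ℤ) - r' i)) *
      ((∏ d, ξ d ^ w' d) * ∏ i, (α i * ∏ d, ξ d ^ N) ^ r' i) =
    (∏ d, ξ d ^ w d) * ∏ i, (α i * ∏ d, ξ d ^ N) ^ r i := by
  have h1 : ∀ d, ξ d ^ ((w d : ℤ) - w' d + N * (((∑ i, r i : ℕ) : ℤ) - (∑ i, r' i : ℕ))) =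
      ξ d ^ w d / ξ d ^ w' d * ((ξ d ^ N) ^ (∑ i, r i) / (ξ d ^ N) ^ ∑ i, r' i) := fun d => by
    rw [zpow_add₀ (hξ d), zpow_sub₀ (hξ d), zpow_mul, zpow_natCast, zpow_natCast, zpow_natCast,
      zpow_sub₀ (pow_ne_zero _ (hξ d)), zpow_natCast, zpow_natCast]
  have h2 : ∀ i, (α i ^ 1) ^ ((r i : ℤ) - r' i) = α i ^ r i / α i ^ r' i := fun i => by
    rw [pow_one, zpow_sub₀ (hα i), zpow_natCast, zpow_natCast]
  have h3 : ∏ d, ξ d ^ w' d ≠ 0 := Finset.prod_ne_zero_iff.2 fun d _ => pow_ne_zero _ (hξ d)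
  have h4 : ∏ d, ξ d ^ N ≠ 0 := Finset.prod_ne_zero_iff.2 fun d _ => pow_ne_zero _ (hξ d)
  have h5 : ∏ i, α i ^ r' i ≠ 0 := Finset.prod_ne_zero_iff.2 fun i _ => pow_ne_zero _ (hα i)
  simp only [h1, h2, mul_pow, Finset.prod_mul_distrib, Finset.prod_div_distrib,
    Finset.prod_pow_eq_pow_sum]
  rw [Finset.prod_pow _ (∑ i, r i), Finset.prod_pow _ (∑ i, r' i)]
  generalize ∏ d, ξ d ^ N = P at h4
  field_simp

theorem Top_map {σ R S : Type} [CommRing R] [CommRing S] (f : R →+* S) {P P' : MvPolynomial σ R}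
    (h : Prop2 P P') : Prop2 (MvPolynomial.map f P) (MvPolynomial.map f P') := fun μ ν => by
  simpa only [coeff_map, map_mul] using congrArg f (h μ ν)

theorem top (hL : IsLog L) (U : Ultrafilter ι) {J I : Type} [Fintype J] [Fintype I]
    (ζ : ι → J → PadicAlgCl p) (hζ : ∀ n j, Root (ζ n j))
    (F0 : IntermediateField ℚ_[p] (PadicAlgCl p)) [FiniteDimensional ℚ_[p] F0] (hF0 : F0 ≤ Unr p)
    (b : ι → I → J → PadicAlgCl p) (hb : ∀ n i j, b n i j ∈ F0 ∧ ‖b n i j‖ ≤ 1)
    (α : I → GF p U) (hα : ∀ i, α i = gm U fun n => ∑ j, b n i j * ζ n j)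
    (hα' : ∀ i, ¬ Inf (vG U) (vG U (p : GF p U)) (α i)) :
    ∃ (m : ℕ) (x : ι → Fin m → PadicAlgCl p) (η : J → PadicAlgCl p) (e : J → Fin m →₀ ℕ)
      (N0 M : ℕ), M ≠ 0 ∧ (∀ n d, Root (x n d)) ∧ (∀ j, Root (η j)) ∧
      (∀ᶠ n in U, ∀ j, ζ n j * ∏ d, x n d ^ N0 = η j * ∏ d, x n d ^ e j d) ∧
      (∀ i, vG U (LG U L (α i ^ M)) ≤ 1) ∧
      ∀ (F1 : IntermediateField ℚ_[p] (PadicAlgCl p)) [FiniteDimensional ℚ_[p] F1], F0 ≤ F1 →
        F1 ≤ Unr p ⊔ F0 → (∀ j, η j ∈ F1) → ∀ (I' : Type) [Fintype I'] (ε : I' → I),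
        SI (vG U) (GS U fun _ => F1) (vG U (p : GF p U))
          (Sum.elim (fun d => gm U fun n => x n d) fun i => LG U L (α (ε i) ^ M)) ∨
        ∃ r : I' → ℤ, r ≠ 0 ∧ ∃ ω : Fin m → ℤ,
          Small (vG U) (GS U fun _ => F1) (vG U (p : GF p U)) (fun d => gm U fun n => x n d)
            ((∏ d, (gm U fun n => x n d) ^ ω d) * ∏ i, (α (ε i) ^ M) ^ r i) := by
  classical
  obtain ⟨O, j, hj⟩ := exists_br p
  obtain ⟨Λ, h⟩ := exists_lam (p := p) U
  have hl := lim_br hj h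
  choose hz t ht hzt using fun n i => hj.root _ (hζ n i)
  let z : ι → J → O := fun n i => ⟨_, hz n i⟩
  let b' : I → J → ι → O := fun i k n =>
    ⟨b n i k, (hl.mem _).2 ⟨hF0 (hb n i k).1, (hb n i k).2⟩⟩
  choose β hβ using fun i k => hl.const F0 hF0 ⟨b' i k, mem_RK.2 fun n => (hb n i k).1⟩
  let a : I → ι → O := fun i n => ∑ k, b' i k n * z n k
  have ha : ∀ i, gO U O (a i) = α i := fun i => by
    rw [hα, gO_apply]
    congr 1
    funext n
    simp [a, b', z]
  have ha0 : ∀ i, (Λ.comp (piMap ι j)) (a i) ≠ 0 := fun i h0 => hα' i (ha i ▸ (hl.zero _).1 h0)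
  choose v g y hg hv using fun i => h.val (x := fun n => j (a i n)) (ha0 i)
  let l : I → ι → O := fun i n => if h' : L (a i n) ∈ O then ⟨_, h'⟩ else 0
  have hl1 : ∀ i, ∀ᶠ n in U, (l i n : PadicAlgCl p) = L (a i n) ∧ WLog p (y i n) (j (l i n)) :=
    fun i => (hv i).mono fun n hn => by
      obtain ⟨h', h2⟩ := hj.log hL (a i n) (hg i n) hn
      simp only [l, dif_pos h']
      exact ⟨trivial, h2⟩
  have hl2 : ∀ i, gO U O (l i) = LG U L (α i ^ 1) := fun i => by
    rw [pow_one, ← ha, gO_apply, gO_apply, LG_gm, gm_eq]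
    exact (hl1 i).mono fun n hn => hn.1
  obtain ⟨m, c, N0, η, e, hc, he, hs⟩ := thmD (p := p) (kap U)
    (fun i => ((fun n => t n i : ι → K0 p) : KU p U)) (fun i => germ_ne fun n => ht n i)
    β v (fun k => (g k : KU p U)) (fun k => Λ (y k))
    (fun k => Λ fun n => j (l k n)) (fun k => germ_ne (hg k)) (fun k => by
      have e1 : (fun n => j (a k n)) =
          ∑ i, piMap ι j (b' k i) * fun n => WittVector.teichmuller p (t n i) := by
        funext n
        simp [a, z, hzt, piMap_apply]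
      have e2 := h.congr (hv k)
      rw [e1] at e2
      simp only [map_sum, map_mul, h.teich] at e2
      simp only [hβ]
      rw [← h.teich]
      refine e2.trans ?_
      change Λ (p ^ v k * (fun n => WittVector.teichmuller p (g k n)) * (1 + p * y k)) = _
      simp only [map_mul, map_add, map_pow, map_natCast, map_one])
    (fun k => h.wlog ((hl1 k).mono fun n hn => hn.2))
  obtain ⟨x, η', hx, hη, hxa, hη', hev⟩ := special h hj z t ht hzt c hc η e he
  refine ⟨m, fun n d => x n d, fun i => η' i, e, N0, 1, one_ne_zero, hx, hη,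
    hev.mono fun n hn i => by simpa [z] using congrArg Subtype.val (hn i), fun i => ?_,
    fun F1 _ h01 h1 hηF I' _ ε => ?_⟩
  · rw [← hl2, gO_apply, vG_le_one]
    exact Eventually.of_forall fun n => hj.le _ (l i n).2
  rw [sup_eq_left.2 hF0] at h1
  let X : Fin m → ι → O := fun d n => x n d
  have hX : ∀ d, (Λ.comp (piMap ι j)) (X d) = WittVector.teichmuller p (c d) := hxa
  rcases hs I' ε with h2 | ⟨r, r', w, w', hr, h2⟩
  · have h3 := hl.si h1 (Sum.elim X fun i => l (ε i)) fun P hP => h2 P (by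
      rw [← hP]
      congr 1
      funext d
      cases d with
      | inl d => exact (hX d).symm
      | inr d => rfl)
    refine Or.inl ?_
    convert h3 using 1
    funext d
    cases d with
    | inl d => rfl
    | inr d => exact (hl2 _).symm
  let f : I' → MvPolynomial (Fin m) (RK ι O F1) := fun i => fp e fun k =>
    ⟨b' (ε i) k, mem_RK.2 fun n => h01 (hb n _ k).1⟩ * ⟨fun _ => η' k, mem_RK.2 fun _ => hηF k⟩
  have f1 : ∀ i, map ((Λ.comp (piMap ι j)).comp (RK ι O F1).subtype) (f i) =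
      map (WittVector.map (kap U)) (fp e fun k => β (ε i) k * WittVector.teichmuller p (η k)) := by
    intro i
    rw [map_fp, map_fp]
    congr 1
    funext k
    rw [map_mul, map_mul, hβ, ← hη', ← h.const]
    rfl
  have f2 : ∀ i, ∀ᶠ n in U, eval₂ (RK ι O F1).subtype X (f i) n = (a (ε i) * ∏ d, X d ^ N0) n := by
    intro i
    refine hev.mono fun n hn => ?_
    refine (hom_eval₂ (f i) _ (Pi.evalRingHom (fun _ => O) n) X).trans ?_
    refine (ev_fp _ (x n) e _ _ (z n) _ hn).trans ?_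
    rw [Pi.mul_apply, Finset.prod_apply]
    rfl
  have f3 : ∀ (r : I' → ℕ) (w : Fin m →₀ ℕ),
      eval₂ (RK ι O F1).subtype X (monomial w 1 * ∏ i, f i ^ r i) =
        (∏ d, X d ^ w d) * ∏ i, eval₂ (RK ι O F1).subtype X (f i) ^ r i := fun r w => by
    simp only [eval₂_mul, eval₂_monomial, map_one, one_mul, eval₂_prod, eval₂_pow,
      Finsupp.prod_pow]
  have f4 : ∀ (r : I' → ℕ) (w : Fin m →₀ ℕ), (Λ.comp (piMap ι j))
      (eval₂ (RK ι O F1).subtype X (monomial w 1 * ∏ i, f i ^ r i)) ≠ 0 := fun r w => by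
    have k : ∀ w : Fin m → ℕ, (Λ.comp (piMap ι j)) (∏ d, X d ^ w d) ≠ 0 := fun w => by
      rw [map_prod]
      refine Finset.prod_ne_zero_iff.2 fun d _ => ?_
      rw [map_pow, hX]
      exact pow_ne_zero _ (teich_ne (hc d))
    rw [f3, map_mul, map_prod _ _ (Finset.univ : Finset I')]
    refine mul_ne_zero (k _) (Finset.prod_ne_zero_iff.2 fun i _ => ?_)
    rw [map_pow, hl.congr (f2 i), map_mul]
    exact pow_ne_zero _ (mul_ne_zero (ha0 _) (k _))
  have f5 : ∀ (r : I' → ℕ) (w : Fin m →₀ ℕ),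
      gO U O (eval₂ (RK ι O F1).subtype X (monomial w 1 * ∏ i, f i ^ r i)) =
        (∏ d, gO U O (X d) ^ w d) * ∏ i, (α (ε i) * ∏ d, gO U O (X d) ^ N0) ^ r i := fun r w => by
    have k : ∀ i, gO U O (eval₂ (RK ι O F1).subtype X (f i)) =
        gO U O (a (ε i) * ∏ d, X d ^ N0) := fun i =>
      (gm_eq U).2 ((f2 i).mono fun n hn => congrArg Subtype.val hn)
    simp only [f3, map_mul, map_prod, map_pow, k, ha]
  obtain ⟨o, ho⟩ := Function.ne_iff.1 hr
  refine Or.inr ⟨fun i => (r i : ℤ) - r' i, Function.ne_iff.2 ⟨o, sub_ne_zero.2 (by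
    exact_mod_cast ho)⟩, fun d => (w d : ℤ) - w' d + N0 * (((∑ i, r i : ℕ) : ℤ) - (∑ i, r' i : ℕ)),
    hl.small X _ _ ?_ (f4 r w) (f4 r' w') ?_⟩
  · simpa only [map_mul, map_prod, map_pow, map_monomial, map_one, f1] using
      Top_map (WittVector.map (kap U)) h2
  · rw [f5, f5]
    exact Top_alg (fun d => gO U O (X d))
      (fun d => (gm_ne U).2 (Eventually.of_forall fun n => (hx n d).ne_zero)) (fun i => α (ε i))
      (fun i h0 => hα' (ε i) (h0.symm ▸ LF_inf_zero)) N0 r r' w w'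

end Pool.Agent.Work.MP_dd0d16_nt.T
end

-- merged part: Pool.Agent.Work.MP_dd0d16_nt.R.Top2
section
/-!
The dichotomy at the scale of `p`, ramified coefficients.

PLAN. Follow `top` (S/Top). `O, j` from `exists_br`, `Λ` from `exists_lam`, `g, φ, M` from `exists_ram`,
`Λ'` from `lim_ram` with `W = Unr p ⊔ F0`, `O' = φ.range`; `b · i j`, `ζ · j`, `a i` are families in
`O'` (`O ≤ O'`). Since `α i` is not infinitesimal, eventually `p ^ (-c) < ‖a i n‖` (`vG_le_pow`), so
the exponent `r` of the normal form of `(a i n) ^ M` is at most `c * M` and one value `v i` occurs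
eventually (`Ultrafilter.eventually_exists_mem_iff` or `Ultrafilter.finite_biUnion_mem_iff`). Choose
for all `n` a root `ω i n`, `y i n : O'` and `l i n = L (1 + p * y i n) ∈ O'` (`wlog_of_mem`; `WLog` for
the families in the ring `ι → O'` by `choose`, then `WLog.map Λ'`); eventually
`l i n = L (a i n ^ M)` (`log_root`, `log_pow`, `L p = 0`). `Br.root` gives the Teichmueller form of
`ζ` and `ω`; `Lam.teich`, the second part of `lim_ram`, `Lim.congr`, `Lim.const`; apply `thmD2`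
(`Eis.map`), `special` (T/Seq), `Lim.si`, `Lim.small`, `Top_map`, and `Top_alg` for `α ^ M` and
`N0 * M`. `AdjoinRoot.of` is injective and the target ring is a domain (`ar_domain`, `ar_uniq`).
-/

set_option autoImplicit false

namespace Pool.Agent.Work.MP_dd0d16_nt.T

open Filter MvPolynomial

variable {p : ℕ} [Fact p.Prime] {ι : Type} {L : PadicAlgCl p → PadicAlgCl p}

theorem Top2_nf (U : Ultrafilter ι) {O' : Subring (PadicAlgCl p)} {M : ℕ}
    (hnf : ∀ α ∈ O', α ≠ 0 → ∃ (r : ℕ) (ω y : PadicAlgCl p), Root ω ∧ y ∈ O' ∧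
      ‖α‖ ^ M = (p : ℝ)⁻¹ ^ r ∧ α ^ M = p ^ r * ω * (1 + p * y))
    (a : ι → O') (ha : ¬ Inf (vG U) (vG U (p : GF p U)) (gO U O' a)) :
    ∃ (v : ℕ) (ω : ι → PadicAlgCl p) (y : ι → O'), (∀ n, Root (ω n)) ∧
      ∀ᶠ n in U, (a n : PadicAlgCl p) ^ M = p ^ v * ω n * (1 + p * y n) := by
  classical
  obtain ⟨c, hc⟩ := not_forall.1 ha
  rw [gO_apply, vG_le_pow, ← Ultrafilter.eventually_not] at hc
  have hp1 : (1 : ℝ) < p := by exact_mod_cast (Fact.out : p.Prime).one_lt
  have hp0 : (0 : ℝ) < (p : ℝ)⁻¹ := inv_pos.2 (by linarith)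
  have hp2 : (p : ℝ)⁻¹ < 1 := inv_lt_one_of_one_lt₀ hp1
  have h1 : ∀ n, ∃ (r : ℕ) (ω : PadicAlgCl p) (y : O'), Root ω ∧ ((a n : PadicAlgCl p) ≠ 0 →
      ‖(a n : PadicAlgCl p)‖ ^ M = (p : ℝ)⁻¹ ^ r ∧
        (a n : PadicAlgCl p) ^ M = p ^ r * ω * (1 + p * y)) := fun n => by
    by_cases h0 : (a n : PadicAlgCl p) = 0
    · exact ⟨0, 1, 0, ⟨1, (Fact.out : p.Prime).not_dvd_one, one_pow 1⟩, fun h => (h h0).elim⟩
    · obtain ⟨r, ω, y, h2, h3, h4⟩ := hnf _ (a n).2 h0
      exact ⟨r, ω, ⟨y, h3⟩, h2, fun _ => h4⟩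
  choose r ω y h2 h3 using h1
  have h4 : ∀ᶠ n in U, ∃ v ∈ Set.Iic (c * M), (a n : PadicAlgCl p) ≠ 0 ∧ r n = v :=
    hc.mono fun n hn => by
      have h5 := not_le.1 hn
      have h0 : (a n : PadicAlgCl p) ≠ 0 := norm_pos_iff.1 ((pow_pos hp0 c).trans h5)
      refine ⟨r n, ?_, h0, rfl⟩
      have h6 := pow_le_pow_left₀ (pow_pos hp0 c).le h5.le M
      rw [(h3 n h0).1, ← pow_mul] at h6
      exact (pow_le_pow_iff_right_of_lt_one₀ hp0 hp2).1 h6
  obtain ⟨v, -, hv⟩ := (Ultrafilter.eventually_exists_mem_iff (Set.finite_Iic _)).1 h4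
  exact ⟨v, ω, y, h2, hv.mono fun n hn => hn.2 ▸ (h3 n hn.1).2⟩

omit [Fact p.Prime] in
theorem Top2_wlog {R : Type} [CommRing R] {x l : ι → R} (h : ∀ n, WLog p (x n) (l n)) :
    WLog p x l := fun M => by
  choose c hc using fun n => h n M
  exact ⟨c, funext fun n => by simpa using hc n⟩

omit [Fact p.Prime] in
theorem Top2_of {A : Type} [CommRing A] {g : Polynomial A}
    (hg : Eis p g) : Function.Injective (AdjoinRoot.of g) := by
  refine (injective_iff_map_eq_zero _).2 fun x hx => ?_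
  have h1 := ar_uniq (f := RingHom.id A) (g' := g) hg.monic (Polynomial.map_id).symm
    (Pi.single ⟨0, hg.pos⟩ x) (by
      rw [Finset.sum_eq_single ⟨0, hg.pos⟩]
      · simp [hx]
      · intro b _ hb
        simp [Pi.single_eq_of_ne hb]
      · simp)
  simpa using congrFun h1 ⟨0, hg.pos⟩

theorem top2 (hL : IsLog L) (U : Ultrafilter ι) {J I : Type} [Fintype J] [Fintype I]
    (ζ : ι → J → PadicAlgCl p) (hζ : ∀ n j, Root (ζ n j))
    (F0 : IntermediateField ℚ_[p] (PadicAlgCl p)) [FiniteDimensional ℚ_[p] F0]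
    (b : ι → I → J → PadicAlgCl p) (hb : ∀ n i j, b n i j ∈ F0 ∧ ‖b n i j‖ ≤ 1)
    (α : I → GF p U) (hα : ∀ i, α i = gm U fun n => ∑ j, b n i j * ζ n j)
    (hα' : ∀ i, ¬ Inf (vG U) (vG U (p : GF p U)) (α i)) :
    ∃ (m : ℕ) (x : ι → Fin m → PadicAlgCl p) (η : J → PadicAlgCl p) (e : J → Fin m →₀ ℕ)
      (N0 M : ℕ), M ≠ 0 ∧ (∀ n d, Root (x n d)) ∧ (∀ j, Root (η j)) ∧
      (∀ᶠ n in U, ∀ j, ζ n j * ∏ d, x n d ^ N0 = η j * ∏ d, x n d ^ e j d) ∧
      (∀ i, vG U (LG U L (α i ^ M)) ≤ 1) ∧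
      ∀ (F1 : IntermediateField ℚ_[p] (PadicAlgCl p)) [FiniteDimensional ℚ_[p] F1], F0 ≤ F1 →
        F1 ≤ Unr p ⊔ F0 → (∀ j, η j ∈ F1) → ∀ (I' : Type) [Fintype I'] (ε : I' → I),
        SI (vG U) (GS U fun _ => F1) (vG U (p : GF p U))
          (Sum.elim (fun d => gm U fun n => x n d) fun i => LG U L (α (ε i) ^ M)) ∨
        ∃ r : I' → ℤ, r ≠ 0 ∧ ∃ ω : Fin m → ℤ,
          Small (vG U) (GS U fun _ => F1) (vG U (p : GF p U)) (fun d => gm U fun n => x n d)
            ((∏ d, (gm U fun n => x n d) ^ ω d) * ∏ i, (α (ε i) ^ M) ^ r i) := by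
  classical
  obtain ⟨O, j, hj⟩ := exists_br p
  obtain ⟨Λ, h⟩ := exists_lam (p := p) U
  obtain ⟨g, φ, M, hE, hinj, hc0, hW, hM, hnf⟩ := exists_ram hj F0
  obtain ⟨Λ', hl, hΛ'⟩ := lim_ram hj h hE.monic φ hinj hc0 hW
  have hO : O ≤ φ.range := fun z hz => ⟨_, hc0 ⟨z, hz⟩⟩
  have hE0 : Eis p (g.map j) := hE.map j
  have hE1 : Eis p ((g.map j).map (WittVector.map (kap U))) := hE0.map _
  have := ar_domain hE1
  choose hz t ht hzt using fun n i => hj.root _ (hζ n i)
  let z : ι → J → O := fun n i => ⟨_, hz n i⟩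
  let z' : J → ι → φ.range := fun i n => ⟨_, hO (hz n i)⟩
  let b' : I → J → ι → φ.range := fun i k n =>
    ⟨b n i k, (hl.mem _).2 ⟨(le_sup_right : F0 ≤ _) (hb n i k).1, (hb n i k).2⟩⟩
  choose β hβ using fun i k => hl.const F0 le_sup_right ⟨b' i k, mem_RK.2 fun n => (hb n i k).1⟩
  let a : I → ι → φ.range := fun i => ∑ k, b' i k * z' k
  have ha : ∀ i, gO U φ.range (a i) = α i := fun i => by
    rw [hα, gO_apply]
    congr 1
    funext n
    simp [a, b', z']
  have ha0 : ∀ i, Λ' (a i) ≠ 0 := fun i h0 => hα' i (ha i ▸ (hl.zero _).1 h0)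
  choose v ω y hω hv using fun i => Top2_nf U hnf (a i) (ha i ▸ hα' i)
  choose hω' s hs0 hωs using fun i n => hj.root _ (hω i n)
  choose hy0 hy1 hy2 using fun i n => wlog_of_mem hL hW (y i n)
  let l : I → ι → φ.range := fun i n => ⟨_, hy1 i n⟩
  have hl2 : ∀ i, gO U φ.range (l i) = LG U L (α i ^ M) := fun i => by
    rw [← ha, ← map_pow, gO_apply, gO_apply, LG_gm, gm_eq]
    refine (hv i).mono fun n hn => ?_
    have h0 : (p : PadicAlgCl p) ≠ 0 := Nat.cast_ne_zero.2 (Fact.out : p.Prime).ne_zero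
    rw [Pi.pow_apply, SubmonoidClass.coe_pow, hn,
      hL.1 _ _ (mul_ne_zero (pow_ne_zero _ h0) (hω i n).ne_zero) (hy0 i n),
      hL.1 _ _ (pow_ne_zero _ h0) (hω i n).ne_zero, log_pow hL h0, hL.2.1, log_root hL (hω i n)]
    simp [l]
  obtain ⟨m, c, N0, η, e, hc, he, hs⟩ := thmD2 (p := p) (kap U) hE0
    (fun i => ((fun n => t n i : ι → K0 p) : KU p U)) (fun i => germ_ne fun n => ht n i)
    β v (fun k => (s k : KU p U)) M (fun k => Λ' (y k))
    (fun k => Λ' (l k)) (fun k => germ_ne (hs0 k)) (fun k => by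
      have e1 : ∀ i, Λ' (z' i) = AdjoinRoot.of _
          (WittVector.teichmuller p ((fun n => t n i : ι → K0 p) : KU p U)) := fun i => by
        rw [hΛ' (fun n => z n i) (z' i) fun n => rfl, ← h.teich]
        simp only [z, hzt]
      let ω' : ι → φ.range := fun n => ⟨_, hO (hω' k n)⟩
      have e2 : Λ' ω' = AdjoinRoot.of _ (WittVector.teichmuller p (s k : KU p U)) := by
        rw [hΛ' (fun n => ⟨_, hω' k n⟩) ω' fun n => rfl, ← h.teich]
        simp only [hωs]
      have e3 : Λ' (a k ^ M) = Λ' (p ^ v k * ω' * (1 + p * y k)) :=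
        hl.congr ((hv k).mono fun n hn => Subtype.ext (by simpa [ω'] using hn))
      simp only [a, map_sum, map_mul, map_add, map_pow, map_natCast, map_one, e1, e2] at e3
      simp only [hβ]
      exact e3)
    (fun k => (Top2_wlog (hy2 k)).map Λ')
  obtain ⟨x, η', hx, hη, hxa, hη', hev⟩ := special h hj z t ht hzt c hc η e he
  refine ⟨m, fun n d => x n d, fun i => η' i, e, N0, M, hM, hx, hη,
    hev.mono fun n hn i => by simpa [z] using congrArg Subtype.val (hn i), fun i => ?_,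
    fun F1 _ h01 h1 hηF I' _ ε => ?_⟩
  · rw [← hl2]
    exact Lim_le hl _
  let X : Fin m → ι → φ.range := fun d n => ⟨x n d, hO (x n d).2⟩
  have hX : ∀ d, Λ' (X d) = AdjoinRoot.of _ (WittVector.teichmuller p (c d)) := fun d => by
    rw [hΛ' (fun n => x n d) (X d) fun n => rfl, hxa]
  rcases hs I' ε with h2 | ⟨r, r', w, w', hr, h2⟩
  · have h3 := hl.si h1 (Sum.elim X fun i => l (ε i)) fun P hP => h2 P (by
      rw [← hP]
      congr 1
      funext d
      cases d with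
      | inl d => exact (hX d).symm
      | inr d => rfl)
    refine Or.inl ?_
    convert h3 using 1
    funext d
    cases d with
    | inl d => rfl
    | inr d => exact (hl2 _).symm
  let f : I' → MvPolynomial (Fin m) (RK ι φ.range F1) := fun i => fp e fun k =>
    ⟨b' (ε i) k, mem_RK.2 fun n => h01 (hb n _ k).1⟩ *
      ⟨fun _ => ⟨η' k, hO (η' k).2⟩, mem_RK.2 fun _ => hηF k⟩
  have f1 : ∀ i, map (Λ'.comp (RK ι φ.range F1).subtype) (f i) =
      map (AdjoinRoot.map (WittVector.map (kap U)) (g.map j) _ dvd_rfl)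
        (fp e fun k => β (ε i) k * AdjoinRoot.of _ (WittVector.teichmuller p (η k))) := by
    intro i
    rw [map_fp, map_fp]
    congr 1
    funext k
    rw [map_mul, map_mul, hβ, ← hη', AdjoinRoot.map_of, ← h.const,
      ← hΛ' (fun _ => η' k) (fun _ => ⟨η' k, hO (η' k).2⟩) fun _ => rfl]
    rfl
  have f2 : ∀ i, ∀ᶠ n in U, eval₂ (RK ι φ.range F1).subtype X (f i) n =
      (a (ε i) * ∏ d, X d ^ N0) n := by
    intro i
    refine hev.mono fun n hn => ?_
    refine (hom_eval₂ (f i) _ (Pi.evalRingHom (fun _ => φ.range) n) X).trans ?_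
    refine (ev_fp _ (fun d => X d n) e _ _ (fun k => z' k n) (∏ d, X d n ^ N0) fun k => ?_).trans ?_
    · exact Subtype.ext (by simpa [z, z', X] using congrArg Subtype.val (hn k))
    · simp only [a]
      rw [Pi.mul_apply, Finset.prod_apply, Finset.sum_apply]
      rfl
  have f3 : ∀ (r : I' → ℕ) (w : Fin m →₀ ℕ),
      eval₂ (RK ι φ.range F1).subtype X (monomial w 1 * ∏ i, (f i ^ M) ^ r i) =
        (∏ d, X d ^ w d) * ∏ i, (eval₂ (RK ι φ.range F1).subtype X (f i) ^ M) ^ r i :=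
    fun r w => by
      simp only [eval₂_mul, eval₂_monomial, map_one, one_mul, eval₂_prod, eval₂_pow,
        Finsupp.prod_pow]
  have f4 : ∀ (r : I' → ℕ) (w : Fin m →₀ ℕ),
      Λ' (eval₂ (RK ι φ.range F1).subtype X (monomial w 1 * ∏ i, (f i ^ M) ^ r i)) ≠ 0 :=
    fun r w => by
      have k : ∀ w : Fin m → ℕ, Λ' (∏ d, X d ^ w d) ≠ 0 := fun w => by
        rw [map_prod]
        refine Finset.prod_ne_zero_iff.2 fun d _ => ?_
        rw [map_pow, hX]
        have k1 := (map_ne_zero_iff _ (Top2_of hE1)).2 (teich_ne (hc d))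
        exact pow_ne_zero _ k1
      rw [f3, map_mul, map_prod _ _ (Finset.univ : Finset I')]
      refine mul_ne_zero (k _) (Finset.prod_ne_zero_iff.2 fun i _ => ?_)
      rw [map_pow, map_pow, hl.congr (f2 i), map_mul]
      exact pow_ne_zero _ (pow_ne_zero _ (mul_ne_zero (ha0 _) (k _)))
  have f5 : ∀ (r : I' → ℕ) (w : Fin m →₀ ℕ),
      gO U φ.range (eval₂ (RK ι φ.range F1).subtype X (monomial w 1 * ∏ i, (f i ^ M) ^ r i)) =
        (∏ d, gO U φ.range (X d) ^ w d) *
          ∏ i, (α (ε i) ^ M * ∏ d, gO U φ.range (X d) ^ (N0 * M)) ^ r i := fun r w => by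
    have k : ∀ i, gO U φ.range (eval₂ (RK ι φ.range F1).subtype X (f i)) =
        gO U φ.range (a (ε i) * ∏ d, X d ^ N0) := fun i =>
      (gm_eq U).2 ((f2 i).mono fun n hn => congrArg Subtype.val hn)
    have k2 : ∀ i, (α (ε i) * ∏ d, gO U φ.range (X d) ^ N0) ^ M =
        α (ε i) ^ M * ∏ d, gO U φ.range (X d) ^ (N0 * M) := fun i => by
      simp only [mul_pow, pow_mul, Finset.prod_pow]
    simp only [f3, map_mul, map_prod, map_pow, k, ha, k2]
  obtain ⟨o, ho⟩ := Function.ne_iff.1 hr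
  refine Or.inr ⟨fun i => (r i : ℤ) - r' i, Function.ne_iff.2 ⟨o, sub_ne_zero.2 (by
    exact_mod_cast ho)⟩, fun d => (w d : ℤ) - w' d +
      (N0 * M : ℕ) * (((∑ i, r i : ℕ) : ℤ) - (∑ i, r' i : ℕ)),
    hl.small X _ _ ?_ (f4 r w) (f4 r' w') ?_⟩
  · simpa only [map_mul, map_prod, map_pow, map_monomial, map_one, f1] using
      Top_map (AdjoinRoot.map (WittVector.map (kap U)) (g.map j) _ dvd_rfl) h2
  · rw [f5, f5]
    have k := Top_alg (fun d => gO U φ.range (X d))
      (fun d => (gm_ne U).2 (Eventually.of_forall fun n => (hx n d).ne_zero))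
      (fun i => α (ε i) ^ M)
      (fun i => pow_ne_zero _ fun h0 => hα' (ε i) (h0.symm ▸ LF_inf_zero)) (N0 * M) r r' w w'
    simp only [pow_one] at k
    exact k

end Pool.Agent.Work.MP_dd0d16_nt.T
end
end
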